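import Mathlib

open MeasureTheory Measure Set Metric Module Real
open scoped ENNReal RealInnerProductSpace

namespace Pool.Agent.Helper50.Mahler

noncomputable section

section Polar

variable {E : Type*} [NormedAddCommGroup E] [NormedSpace ℝ E] [MeasurableSpace E] [BorelSpace E]
  [FiniteDimensional ℝ E] [Nontrivial E] (μ : Measure E) [μ.IsAddHaarMeasure]

theorem integral_polar (f : E → ℝ) :
    ∫ x, f x ∂μ = ∫ z : sphere (0 : E) 1 × Ioi (0 : ℝ), f (z.2.1 • z.1.1)
      ∂(μ.toSphere.prod (volumeIoiPow (finrank ℝ E - 1))) := by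
  calc ∫ x, f x ∂μ = ∫ x : ({(0)}ᶜ : Set E), f x.1 ∂(μ.comap (↑)) := by
        rw [integral_subtype_comap (measurableSet_singleton _).compl f, restrict_compl_singleton]
    _ = _ := by
        have h := (μ.measurePreserving_homeomorphUnitSphereProd).integral_comp
          (Homeomorph.measurableEmbedding _)
          (fun z : sphere (0 : E) 1 × Ioi (0 : ℝ) => f (z.2.1 • z.1.1))
        rw [← h]
        congr 1
        ext x
        congr 1
        have := (homeomorphUnitSphereProd E).symm_apply_apply x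
        have h2 := congrArg Subtype.val this
        rw [homeomorphUnitSphereProd_symm_apply_coe] at h2
        exact h2.symm

theorem lintegral_polar (f : E → ℝ≥0∞) :
    ∫⁻ x, f x ∂μ = ∫⁻ z : sphere (0 : E) 1 × Ioi (0 : ℝ), f (z.2.1 • z.1.1)
      ∂(μ.toSphere.prod (volumeIoiPow (finrank ℝ E - 1))) := by
  calc ∫⁻ x, f x ∂μ = ∫⁻ x : ({(0)}ᶜ : Set E), f x.1 ∂(μ.comap (↑)) := by
        rw [lintegral_subtype_comap (measurableSet_singleton _).compl f, restrict_compl_singleton]
    _ = _ := by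
        have h := (μ.measurePreserving_homeomorphUnitSphereProd).lintegral_comp_emb
          (Homeomorph.measurableEmbedding _)
          (fun z : sphere (0 : E) 1 × Ioi (0 : ℝ) => f (z.2.1 • z.1.1))
        rw [← h]
        congr 1
        ext x
        congr 1
        have := (homeomorphUnitSphereProd E).symm_apply_apply x
        have h2 := congrArg Subtype.val this
        rw [homeomorphUnitSphereProd_symm_apply_coe] at h2
        exact h2.symm

theorem measure_lt_one_eq (N : E → ℝ) (hNm : Measurable N) (hpos : ∀ x, x ≠ 0 → 0 < N x)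
    (hhom : ∀ (r : ℝ) (x : E), 0 < r → N (r • x) = r * N x) :
    μ {x | N x < 1} = ∫⁻ θ : sphere (0 : E) 1,
      ENNReal.ofReal ((N θ.1)⁻¹ ^ (finrank ℝ E) / (finrank ℝ E)) ∂μ.toSphere := by
  have hms : MeasurableSet {x | N x < 1} := measurableSet_lt hNm measurable_const
  have hn : 0 < finrank ℝ E := finrank_pos
  rw [← lintegral_indicator_one hms, lintegral_polar]
  have hm2 : Measurable fun z : sphere (0 : E) 1 × Ioi (0 : ℝ) =>
      ({x | N x < 1} : Set E).indicator (1 : E → ℝ≥0∞) (z.2.1 • z.1.1) := by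
    apply (measurable_one.indicator hms).comp
    exact (measurable_subtype_coe.comp measurable_snd).smul
      (measurable_subtype_coe.comp measurable_fst)
  rw [lintegral_prod _ hm2.aemeasurable]
  congr 1
  ext θ
  have hθ : θ.1 ≠ 0 := by
    intro h
    have := θ.2
    rw [mem_sphere_zero_iff_norm, h, norm_zero] at this
    norm_num at this
  have hNθ := hpos θ.1 hθ
  have hset : (fun r : Ioi (0 : ℝ) => ({x | N x < 1} : Set E).indicator (1 : E → ℝ≥0∞)
      (r.1 • θ.1)) = (Iio (⟨(N θ.1)⁻¹, mem_Ioi.2 (inv_pos.2 hNθ)⟩ : Ioi (0 : ℝ))).indicator 1 := by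
    ext r
    have hr : 0 < r.1 := r.2
    by_cases h : r.1 < (N θ.1)⁻¹
    · rw [indicator_of_mem, indicator_of_mem]
      · rfl
      · exact h
      · change N (r.1 • θ.1) < 1
        rw [hhom _ _ hr]
        calc r.1 * N θ.1 < (N θ.1)⁻¹ * N θ.1 := by gcongr
          _ = 1 := inv_mul_cancel₀ hNθ.ne'
    · rw [indicator_of_notMem, indicator_of_notMem]
      · exact h
      · change ¬ (N (r.1 • θ.1) < 1)
        rw [hhom _ _ hr, not_lt]
        rw [not_lt] at h
        calc (1 : ℝ) = (N θ.1)⁻¹ * N θ.1 := (inv_mul_cancel₀ hNθ.ne').symm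
          _ ≤ r.1 * N θ.1 := by gcongr
  simp only [hset]
  rw [lintegral_indicator_one measurableSet_Iio, volumeIoiPow_apply_Iio]
  congr 1
  have : finrank ℝ E - 1 + 1 = finrank ℝ E := Nat.sub_add_cancel hn
  rw [this]
  congr 1
  have h2 : ((finrank ℝ E - 1 : ℕ) : ℝ) + 1 = ((finrank ℝ E - 1 + 1 : ℕ) : ℝ) := by push_cast; ring
  rw [h2, this]

/-- Bernoulli type inequality for negative powers. -/
theorem rpow_neg_ge {t A α : ℝ} (ht : 0 < t) (hA : 0 < A) (hα : 0 ≤ α) :
    A ^ (-α) * (1 - α * (t / A - 1)) ≤ t ^ (-α) := by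
  have h1 : t = A * (t / A) := by field_simp
  have hu : 0 < t / A := div_pos ht hA
  have h2 : t ^ (-α) = A ^ (-α) * (t / A) ^ (-α) := by
    conv_lhs => rw [h1]
    rw [mul_rpow hA.le hu.le]
  rw [h2]
  have hA' : 0 < A ^ (-α) := rpow_pos_of_pos hA _
  apply mul_le_mul_of_nonneg_left _ hA'.le
  have h3 : (t / A) ^ (-α) = exp (Real.log (t / A) * (-α)) := rpow_def_of_pos hu _
  rw [h3]
  have h4 : Real.log (t / A) ≤ t / A - 1 := log_le_sub_one_of_pos hu
  have h5 := add_one_le_exp (Real.log (t / A) * (-α))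
  nlinarith [mul_le_mul_of_nonneg_left h4 hα]

theorem measure_lt_one_ge (N : E → ℝ) (hNm : Measurable N) (hpos : ∀ x, x ≠ 0 → 0 < N x)
    (hhom : ∀ (r : ℝ) (x : E), 0 < r → N (r • x) = r * N x) {c C : ℝ} (hc : 0 < c)
    (hcN : ∀ x, ‖x‖ = 1 → c ≤ N x) (hNC : ∀ x, ‖x‖ = 1 → N x ≤ C) {p : ℝ} (hp : 0 < p)
    {A : ℝ} (hA : A = (∫ θ : sphere (0 : E) 1, N θ.1 ^ p ∂μ.toSphere) /
      (finrank ℝ E * μ.real (ball 0 1))) :
    ENNReal.ofReal (μ.real (ball 0 1) * A ^ (-(finrank ℝ E / p : ℝ))) ≤ μ {x | N x < 1} := by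
  have hn : 0 < finrank ℝ E := finrank_pos
  have hn' : (0 : ℝ) < finrank ℝ E := by exact_mod_cast hn
  have hκ : 0 < μ.real (ball 0 1) :=
    ENNReal.toReal_pos (measure_ball_pos μ _ one_pos).ne' measure_ball_lt_top.ne
  have hσ : μ.toSphere.real univ = finrank ℝ E * μ.real (ball 0 1) := by
    rw [toSphere_real_apply_univ]
  have hσpos : 0 < finrank ℝ E * μ.real (ball 0 1) := mul_pos hn' hκ
  have hnorm : ∀ θ : sphere (0 : E) 1, ‖θ.1‖ = 1 := fun θ => mem_sphere_zero_iff_norm.1 θ.2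
  have hNpos : ∀ θ : sphere (0 : E) 1, 0 < N θ.1 := fun θ => hc.trans_le (hcN _ (hnorm θ))
  have hNms : Measurable fun θ : sphere (0 : E) 1 => N θ.1 := hNm.comp measurable_subtype_coe
  have hC : 0 ≤ C := by
    obtain ⟨x, hx⟩ := exists_norm_eq E (zero_le_one' ℝ)
    exact (hc.trans_le (hcN x hx)).le.trans (hNC x hx)
  have hintp : Integrable (fun θ : sphere (0 : E) 1 => N θ.1 ^ p) μ.toSphere := by
    apply Integrable.of_bound (hNms.pow_const p).aestronglyMeasurable (C ^ p)
    filter_upwards with θ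
    rw [Real.norm_eq_abs, abs_of_nonneg (rpow_nonneg (hNpos θ).le _)]
    exact rpow_le_rpow (hNpos θ).le (hNC _ (hnorm θ)) hp.le
  have hintg : Integrable (fun θ : sphere (0 : E) 1 => (N θ.1)⁻¹ ^ (finrank ℝ E) / (finrank ℝ E))
      μ.toSphere := by
    apply Integrable.of_bound ((hNms.inv.pow_const _).div_const _).aestronglyMeasurable
      (c⁻¹ ^ (finrank ℝ E) / (finrank ℝ E))
    filter_upwards with θ
    have h1 : 0 ≤ (N θ.1)⁻¹ := (inv_pos.2 (hNpos θ)).le
    rw [Real.norm_eq_abs, abs_of_nonneg (by positivity)]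
    have h2 : (N θ.1)⁻¹ ≤ c⁻¹ := inv_anti₀ hc (hcN _ (hnorm θ))
    change (N θ.1)⁻¹ ^ (finrank ℝ E) / (finrank ℝ E) ≤ _
    gcongr
  have hIA : ∫ θ : sphere (0 : E) 1, N θ.1 ^ p ∂μ.toSphere =
      A * (finrank ℝ E * μ.real (ball 0 1)) := by
    rw [hA]; field_simp
  have hApos : 0 < A := by
    rw [hA]
    apply div_pos _ hσpos
    have h1 : ∫ _θ : sphere (0 : E) 1, c ^ p ∂μ.toSphere ≤
        ∫ θ : sphere (0 : E) 1, N θ.1 ^ p ∂μ.toSphere := by
      apply integral_mono (integrable_const _) hintp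
      intro θ
      exact rpow_le_rpow hc.le (hcN _ (hnorm θ)) hp.le
    rw [integral_const, hσ, smul_eq_mul] at h1
    have h2 : 0 < c ^ p := rpow_pos_of_pos hc p
    exact (mul_pos hσpos h2).trans_le h1
  rw [measure_lt_one_eq μ N hNm hpos hhom]
  rw [← ofReal_integral_eq_lintegral_ofReal hintg (by
    filter_upwards with θ
    have h1 : 0 ≤ (N θ.1)⁻¹ := (inv_pos.2 (hNpos θ)).le
    positivity)]
  apply ENNReal.ofReal_le_ofReal
  set α : ℝ := finrank ℝ E / p with hα
  have hα0 : 0 ≤ α := by positivity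
  have hpt : ∀ θ : sphere (0 : E) 1, (1 / (finrank ℝ E : ℝ)) * (A ^ (-α) *
      (1 - α * (N θ.1 ^ p / A - 1))) ≤ (N θ.1)⁻¹ ^ (finrank ℝ E) / (finrank ℝ E) := by
    intro θ
    have h1 := rpow_neg_ge (rpow_pos_of_pos (hNpos θ) p) hApos hα0
    have h2 : (N θ.1 ^ p) ^ (-α) = (N θ.1)⁻¹ ^ (finrank ℝ E) := by
      rw [← rpow_mul (hNpos θ).le]
      have : p * -α = -(finrank ℝ E : ℝ) := by rw [hα]; field_simp
      rw [this, rpow_neg (hNpos θ).le, rpow_natCast, inv_pow]
    rw [h2] at h1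
    have h3 : (N θ.1)⁻¹ ^ (finrank ℝ E) / (finrank ℝ E) =
        (1 / (finrank ℝ E : ℝ)) * (N θ.1)⁻¹ ^ (finrank ℝ E) := by ring
    rw [h3]
    gcongr
  have hint2 : Integrable (fun θ : sphere (0 : E) 1 => (1 / (finrank ℝ E : ℝ)) * (A ^ (-α) *
      (1 - α * (N θ.1 ^ p / A - 1)))) μ.toSphere := by
    apply Integrable.const_mul
    apply Integrable.const_mul
    apply (integrable_const _).sub
    apply Integrable.const_mul
    exact (hintp.div_const A).sub (integrable_const _)
  calc μ.real (ball 0 1) * A ^ (-α)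
      = ∫ θ : sphere (0 : E) 1, (1 / (finrank ℝ E : ℝ)) * (A ^ (-α) *
      (1 - α * (N θ.1 ^ p / A - 1))) ∂μ.toSphere := by
        have hJ1 : Integrable (fun θ : sphere (0 : E) 1 => N θ.1 ^ p / A) μ.toSphere :=
          hintp.div_const A
        have hJ2 : Integrable (fun θ : sphere (0 : E) 1 => N θ.1 ^ p / A - 1) μ.toSphere :=
          hJ1.sub (integrable_const 1)
        have hJ3 : Integrable (fun θ : sphere (0 : E) 1 => α * (N θ.1 ^ p / A - 1)) μ.toSphere :=
          hJ2.const_mul α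
        have e1 : ∫ θ : sphere (0 : E) 1, (N θ.1 ^ p / A - 1) ∂μ.toSphere = 0 := by
          rw [integral_sub hJ1 (integrable_const 1), integral_const, integral_div, hIA, hσ]
          simp only [smul_eq_mul, mul_one]
          field_simp
          ring
        have e2 : ∫ θ : sphere (0 : E) 1, (1 - α * (N θ.1 ^ p / A - 1)) ∂μ.toSphere =
            finrank ℝ E * μ.real (ball 0 1) := by
          rw [integral_sub (integrable_const 1) hJ3, integral_const_mul, e1, integral_const, hσ]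
          simp
        rw [integral_const_mul, integral_const_mul, e2]
        field_simp
    _ ≤ _ := integral_mono hint2 hintg hpt

end Polar

end

end Pool.Agent.Helper50.Mahler
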