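import Mathlib
import Pool.Agent.Helper50.Mahler.Sphere

open MeasureTheory Measure Set Metric Module Real
open scoped ENNReal RealInnerProductSpace

namespace Pool.Agent.Helper50.Mahler

noncomputable section

/-- one-dimensional moments -/
theorem gauss_line {p : ℝ} (hp : -1 < p) :
    ∫ t : ℝ, |t| ^ p * exp (-t ^ 2) = Gamma ((p + 1) / 2) := by
  have h1 : ∫ t : ℝ, |t| ^ p * exp (-t ^ 2) = ∫ t : ℝ, (fun s : ℝ => s ^ p * exp (-s ^ (2:ℝ))) |t| := by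
    congr 1
    ext t
    simp only
    rw [rpow_two, sq_abs]
  rw [h1, integral_comp_abs (f := fun s : ℝ => s ^ p * exp (-s ^ (2:ℝ))),
    integral_rpow_mul_exp_neg_rpow two_pos hp]
  ring

theorem gauss_line0 : ∫ t : ℝ, exp (-t ^ 2) = √π := by
  have := gauss_line (p := 0) (by norm_num)
  simp only [rpow_zero, one_mul, zero_add] at this
  rw [this, Real.Gamma_one_half_eq]

/-- the radial integral -/
theorem radial (k : ℕ) {p : ℝ} (hp : -1 < p) :
    ∫ r : Ioi (0 : ℝ), r.1 ^ p * exp (-r.1 ^ 2) ∂(volumeIoiPow k) =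
      Gamma ((k + 1 + p) / 2) / 2 := by
  unfold volumeIoiPow
  have hm : Measurable fun r : Ioi (0 : ℝ) => ENNReal.ofReal (r.1 ^ k) := by fun_prop
  rw [integral_withDensity_eq_integral_toReal_smul hm (by simp)]
  have h0 : ∀ r : Ioi (0 : ℝ), (ENNReal.ofReal (r.1 ^ k)).toReal •
      (r.1 ^ p * exp (-r.1 ^ 2)) = (fun s : ℝ => s ^ ((k : ℝ) + p) * exp (-s ^ (2 : ℝ))) r.1 := by
    intro r
    have hr : 0 < r.1 := r.2
    rw [ENNReal.toReal_ofReal (by positivity)]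
    simp only [smul_eq_mul]
    rw [rpow_add hr, rpow_natCast, rpow_two, mul_assoc]
  simp_rw [h0]
  have h1 := integral_subtype_comap (μ := (volume : Measure ℝ)) (measurableSet_Ioi (a := (0 : ℝ)))
    (fun s : ℝ => s ^ ((k : ℝ) + p) * exp (-s ^ (2 : ℝ)))
  rw [h1, integral_rpow_mul_exp_neg_rpow two_pos]
  · have : ((k : ℝ) + p + 1) / 2 = (k + 1 + p) / 2 := by ring
    rw [this]; ring
  · have : (0 : ℝ) ≤ k := Nat.cast_nonneg k
    linarith

theorem gauss_moment_aux (k : ℕ) {p : ℝ} (hp : -1 < p) :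
    ∫ x : EuclideanSpace ℝ (Fin (k + 1)), |x 0| ^ p * exp (-‖x‖ ^ 2) =
      Gamma ((p + 1) / 2) * √π ^ k := by
  have h1 := (EuclideanSpace.volume_preserving_symm_measurableEquiv_toLp (Fin (k+1))).integral_comp
    (MeasurableEquiv.measurableEmbedding _)
    (fun y : Fin (k + 1) → ℝ => |y 0| ^ p * exp (-∑ i, y i ^ 2))
  have h2 : ∫ x : EuclideanSpace ℝ (Fin (k + 1)), |x 0| ^ p * exp (-‖x‖ ^ 2) =
      ∫ y : Fin (k + 1) → ℝ, |y 0| ^ p * exp (-∑ i, y i ^ 2) := by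
    rw [← h1]
    congr 1
    ext x
    rw [EuclideanSpace.norm_sq_eq]
    simp
  rw [h2]
  have h3 : ∀ y : Fin (k + 1) → ℝ, |y 0| ^ p * exp (-∑ i, y i ^ 2) =
      ∏ i, (Fin.cons (fun t : ℝ => |t| ^ p * exp (-t ^ 2)) (fun _ => fun t : ℝ => exp (-t ^ 2)) :
        Fin (k + 1) → ℝ → ℝ) i (y i) := by
    intro y
    rw [Fin.prod_univ_succ]
    simp only [Fin.cons_zero, Fin.cons_succ]
    rw [Fin.sum_univ_succ, neg_add, exp_add, ← exp_sum, ← Finset.sum_neg_distrib]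
    ring
  simp_rw [h3]
  rw [integral_fintype_prod_volume_eq_prod (E := fun _ => ℝ), Fin.prod_univ_succ]
  simp only [Fin.cons_zero, Fin.cons_succ]
  rw [gauss_line hp, gauss_line0]
  simp

theorem gauss_moment (k : ℕ) {p : ℝ} (hp : -1 < p) {v : EuclideanSpace ℝ (Fin (k + 1))}
    (hv : ‖v‖ = 1) :
    ∫ x : EuclideanSpace ℝ (Fin (k + 1)), |⟪x, v⟫| ^ p * exp (-‖x‖ ^ 2) =
      Gamma ((p + 1) / 2) * √π ^ k := by
  rw [← gauss_moment_aux k hp]
  have he : ‖v‖ = ‖EuclideanSpace.single (0 : Fin (k+1)) (1 : ℝ)‖ := by simp [hv]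
  set R := (ℝ ∙ (v - EuclideanSpace.single (0 : Fin (k+1)) (1 : ℝ)))ᗮ.reflection with hR
  have hRv : R v = EuclideanSpace.single (0 : Fin (k+1)) (1 : ℝ) := Submodule.reflection_sub he
  have h1 := R.measurePreserving.integral_comp R.toHomeomorph.measurableEmbedding
    (fun x : EuclideanSpace ℝ (Fin (k + 1)) => |x 0| ^ p * exp (-‖x‖ ^ 2))
  rw [← h1]
  congr 1
  ext x
  have h2 : ⟪x, v⟫ = (R x) 0 := by
    rw [← R.inner_map_map x v, hRv]
    simp [EuclideanSpace.inner_single_right]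
  rw [h2, R.norm_map]

theorem sphere_moment (k : ℕ) {p : ℝ} (hp : -1 < p) {v : EuclideanSpace ℝ (Fin (k + 1))}
    (hv : ‖v‖ = 1) :
    ∫ θ : sphere (0 : EuclideanSpace ℝ (Fin (k + 1))) 1, |⟪θ.1, v⟫| ^ p
      ∂(volume : Measure (EuclideanSpace ℝ (Fin (k + 1)))).toSphere =
      2 * Gamma ((p + 1) / 2) * √π ^ k / Gamma ((k + 1 + p) / 2) := by
  have h1 := integral_polar (volume : Measure (EuclideanSpace ℝ (Fin (k + 1))))
    (fun x => |⟪x, v⟫| ^ p * exp (-‖x‖ ^ 2))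
  rw [gauss_moment k hp hv] at h1
  have hfr : finrank ℝ (EuclideanSpace ℝ (Fin (k + 1))) - 1 = k := by simp
  rw [hfr] at h1
  have h2 : ∀ z : sphere (0 : EuclideanSpace ℝ (Fin (k + 1))) 1 × Ioi (0 : ℝ),
      |⟪z.2.1 • z.1.1, v⟫| ^ p * exp (-‖z.2.1 • z.1.1‖ ^ 2) =
      |⟪z.1.1, v⟫| ^ p * (z.2.1 ^ p * exp (-z.2.1 ^ 2)) := by
    intro z
    have hr : 0 < z.2.1 := z.2.2
    rw [norm_smul, mem_sphere_zero_iff_norm.1 z.1.2, mul_one, Real.norm_eq_abs, sq_abs,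
      real_inner_smul_left, abs_mul, abs_of_pos hr, mul_rpow hr.le (abs_nonneg _)]
    ring
  simp_rw [h2] at h1
  rw [integral_prod_mul (fun θ : sphere (0 : EuclideanSpace ℝ (Fin (k + 1))) 1 => |⟪θ.1, v⟫| ^ p)
    (fun r : Ioi (0 : ℝ) => r.1 ^ p * exp (-r.1 ^ 2)), radial k hp] at h1
  have hG : 0 < Gamma ((k + 1 + p) / 2) := by
    apply Gamma_pos_of_pos
    have : (0 : ℝ) ≤ k := Nat.cast_nonneg k
    linarith
  rw [eq_div_iff hG.ne']
  linarith

end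

end Pool.Agent.Helper50.Mahler
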