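import Mathlib

open Real

namespace Pool.Agent.Helper50.Mahler

noncomputable section

/-- mean of `|⟪θ,v⟫|` over the sphere of dimension `n` -/
def bt (n : ℕ) : ℝ := Gamma (n / 2) / (√π * Gamma ((n + 1) / 2))

/-- volume of the unit ball -/
def kp (n : ℕ) : ℝ := √π ^ n / Gamma (n / 2 + 1)

def aa (n : ℕ) : ℝ := kp n ^ 2 * (n.factorial : ℝ) / 4 ^ n

def GG (n : ℕ) : ℝ := 48 * (n : ℝ) ^ 6 * bt n ^ 6 / ((n + 1) * (n + 3) * (n + 5))

theorem bt_pos (n : ℕ) (hn : 1 ≤ n) : 0 < bt n := by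
  have h0 : (0 : ℝ) < n := by exact_mod_cast hn
  unfold bt
  have h1 : 0 < Gamma ((n : ℝ) / 2) := Gamma_pos_of_pos (by positivity)
  have h2 : 0 < Gamma (((n : ℝ) + 1) / 2) := Gamma_pos_of_pos (by positivity)
  positivity

theorem kp_pos (n : ℕ) : 0 < kp n := by
  unfold kp
  have h1 : 0 < Gamma ((n : ℝ) / 2 + 1) := Gamma_pos_of_pos (by positivity)
  positivity

theorem aa_pos (n : ℕ) : 0 < aa n := by
  unfold aa
  have := kp_pos n
  positivity

theorem GG_pos (n : ℕ) (hn : 1 ≤ n) : 0 < GG n := by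
  unfold GG
  have := bt_pos n hn
  have h0 : (0 : ℝ) < n := by exact_mod_cast hn
  positivity

theorem bt_add_two (n : ℕ) (hn : 1 ≤ n) : bt (n + 2) = bt n * (n / (n + 1)) := by
  have h0 : (0 : ℝ) < n := by exact_mod_cast hn
  unfold bt
  have e1 : (((n + 2 : ℕ) : ℝ)) / 2 = (n : ℝ) / 2 + 1 := by push_cast; ring
  have e2 : (((n + 2 : ℕ) : ℝ) + 1) / 2 = ((n : ℝ) + 1) / 2 + 1 := by push_cast; ring
  rw [e1, e2, Gamma_add_one (by positivity), Gamma_add_one (by positivity)]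
  have h1 : 0 < Gamma ((n : ℝ) / 2) := Gamma_pos_of_pos (by positivity)
  have h2 : 0 < Gamma (((n : ℝ) + 1) / 2) := Gamma_pos_of_pos (by positivity)
  field_simp

theorem kp_add_two (n : ℕ) : kp (n + 2) = kp n * (2 * π / (n + 2)) := by
  unfold kp
  have e1 : (((n + 2 : ℕ) : ℝ)) / 2 + 1 = ((n : ℝ) / 2 + 1) + 1 := by push_cast; ring
  rw [e1, Gamma_add_one (by positivity)]
  have h1 : 0 < Gamma ((n : ℝ) / 2 + 1) := Gamma_pos_of_pos (by positivity)
  have h2 : √π ^ (n + 2) = √π ^ n * π := by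
    rw [pow_add, sq_sqrt pi_pos.le]
  rw [h2]
  have : (0 : ℝ) < n + 2 := by positivity
  field_simp

theorem aa_add_two (n : ℕ) : aa (n + 2) = aa n * (π ^ 2 * (n + 1) / (4 * (n + 2))) := by
  unfold aa
  rw [kp_add_two]
  have h : ((n + 2).factorial : ℝ) = (n.factorial : ℝ) * (n + 1) * (n + 2) := by
    rw [Nat.factorial_succ, Nat.factorial_succ]
    push_cast
    ring
  rw [h, pow_add]
  field_simp
  ring

theorem GG_add_two (n : ℕ) (hn : 1 ≤ n) :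
    GG (n + 2) = GG n * (((n : ℝ) + 2) ^ 6 / ((n + 1) ^ 5 * (n + 7))) := by
  have h0 : (0 : ℝ) < n := by exact_mod_cast hn
  unfold GG
  rw [bt_add_two n hn]
  push_cast
  field_simp
  ring

theorem bt_one : bt 1 = 1 := by
  unfold bt
  have e1 : (((1 : ℕ) : ℝ) + 1) / 2 = 1 := by norm_num
  have e2 : ((1 : ℕ) : ℝ) / 2 = 1 / 2 := by norm_num
  rw [e1, e2, Gamma_one, Gamma_one_half_eq]
  have : 0 < √π := sqrt_pos.2 pi_pos
  field_simp

theorem bt_two : bt 2 = 2 / π := by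
  unfold bt
  have e1 : (((2 : ℕ) : ℝ) + 1) / 2 = 1 / 2 + 1 := by norm_num
  have e2 : ((2 : ℕ) : ℝ) / 2 = 1 := by norm_num
  rw [e1, e2, Gamma_add_one (by norm_num), Gamma_one, Gamma_one_half_eq]
  have h : √π * (1 / 2 * √π) = π / 2 := by
    have := mul_self_sqrt pi_pos.le
    linarith
  rw [h]
  field_simp

theorem kp_zero : kp 0 = 1 := by
  unfold kp
  simp

theorem kp_one : kp 1 = 2 := by
  unfold kp
  have e2 : ((1 : ℕ) : ℝ) / 2 + 1 = 1 / 2 + 1 := by norm_num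
  rw [e2, Gamma_add_one (by norm_num), Gamma_one_half_eq]
  have : 0 < √π := sqrt_pos.2 pi_pos
  field_simp

theorem aa_one : aa 1 = 1 := by
  unfold aa
  rw [kp_one]
  norm_num

theorem aa_zero : aa 0 = 1 := by
  unfold aa
  rw [kp_zero]
  norm_num

theorem aa_ge_one : ∀ n : ℕ, 1 ≤ aa n := by
  have key : ∀ n : ℕ, 1 ≤ aa n ∧ 1 ≤ aa (n + 1) := by
    intro n
    induction n with
    | zero => exact ⟨aa_zero.ge, aa_one.ge⟩
    | succ k ih =>
      refine ⟨ih.2, ?_⟩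
      rw [aa_add_two]
      have h1 : (1 : ℝ) ≤ π ^ 2 * (k + 1) / (4 * (k + 2)) := by
        rw [le_div_iff₀ (by positivity)]
        have : (9 : ℝ) ≤ π ^ 2 := by nlinarith [pi_gt_three]
        have hk : (0 : ℝ) ≤ k := Nat.cast_nonneg k
        nlinarith
      nlinarith [ih.1]
  exact fun n => (key n).1

/-- `Γ(x+1/2)² ≤ Γ(x) Γ(x+1)` -/
theorem gamma_half {x : ℝ} (hx : 0 < x) :
    Gamma (x + 1 / 2) ^ 2 ≤ Gamma x * Gamma (x + 1) := by
  have h := Real.Gamma_mul_add_mul_le_rpow_Gamma_mul_rpow_Gamma (s := x) (t := x + 1)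
    (a := 1 / 2) (b := 1 / 2) hx (by linarith) (by norm_num) (by norm_num) (by norm_num)
  have e : (1 / 2 : ℝ) * x + 1 / 2 * (x + 1) = x + 1 / 2 := by ring
  rw [e] at h
  have h0 : 0 < Gamma (x + 1 / 2) := Gamma_pos_of_pos (by positivity)
  have h1 : 0 < Gamma x := Gamma_pos_of_pos hx
  have h2 : 0 < Gamma (x + 1) := Gamma_pos_of_pos (by positivity)
  calc Gamma (x + 1 / 2) ^ 2 ≤ (Gamma x ^ (1 / 2 : ℝ) * Gamma (x + 1) ^ (1 / 2 : ℝ)) ^ 2 := by
        gcongr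
    _ = Gamma x * Gamma (x + 1) := by
        rw [mul_pow, ← sqrt_eq_rpow, ← sqrt_eq_rpow, sq_sqrt h1.le, sq_sqrt h2.le]

theorem bt_sq_le (n : ℕ) (hn : 2 ≤ n) : bt n ^ 2 ≤ 2 / (π * (n - 1)) := by
  have h2 : (2 : ℝ) ≤ n := by exact_mod_cast hn
  have h0 : (0 : ℝ) < ((n : ℝ) - 1) / 2 := by linarith
  have h := gamma_half h0
  have e1 : ((n : ℝ) - 1) / 2 + 1 / 2 = (n : ℝ) / 2 := by ring
  have e2 : ((n : ℝ) - 1) / 2 + 1 = ((n : ℝ) + 1) / 2 := by ring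
  have e3 : Gamma (((n : ℝ) + 1) / 2) = ((n : ℝ) - 1) / 2 * Gamma (((n : ℝ) - 1) / 2) := by
    rw [← e2, Gamma_add_one h0.ne']
  rw [e1, e2] at h
  unfold bt
  have hG : 0 < Gamma (((n : ℝ) + 1) / 2) := Gamma_pos_of_pos (by positivity)
  rw [div_pow, mul_pow, sq_sqrt pi_pos.le, div_le_div_iff₀ (by positivity)
    (mul_pos pi_pos (by linarith))]
  have h3 : Gamma (((n : ℝ) - 1) / 2) * (n - 1) = 2 * Gamma (((n : ℝ) + 1) / 2) := by
    rw [e3]; ring
  calc Gamma ((n : ℝ) / 2) ^ 2 * (π * (n - 1))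
      ≤ (Gamma (((n : ℝ) - 1) / 2) * Gamma (((n : ℝ) + 1) / 2)) * (π * (n - 1)) := by
        apply mul_le_mul_of_nonneg_right h
        apply mul_nonneg pi_pos.le
        linarith
    _ = π * Gamma (((n : ℝ) + 1) / 2) * (Gamma (((n : ℝ) - 1) / 2) * (n - 1)) := by ring
    _ = 2 * (π * Gamma (((n : ℝ) + 1) / 2) ^ 2) := by rw [h3]; ring

/-- crude upper bound -/
theorem GG_le (n : ℕ) (hn : 2 ≤ n) :
    GG n ≤ 384 * (n : ℝ) ^ 6 / (π ^ 3 * (n - 1) ^ 3 * (n + 1) * (n + 3) * (n + 5)) := by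
  have h2 : (2 : ℝ) ≤ n := by exact_mod_cast hn
  have h0 : (0 : ℝ) < (n : ℝ) - 1 := by linarith
  have hb := bt_sq_le n hn
  have h6 : bt n ^ 6 ≤ (2 / (π * (n - 1))) ^ 3 := by
    calc bt n ^ 6 = (bt n ^ 2) ^ 3 := by ring
      _ ≤ _ := by gcongr
  unfold GG
  calc 48 * (n : ℝ) ^ 6 * bt n ^ 6 / ((n + 1) * (n + 3) * (n + 5))
      ≤ 48 * (n : ℝ) ^ 6 * (2 / (π * (n - 1))) ^ 3 / ((n + 1) * (n + 3) * (n + 5)) := by
        gcongr
    _ = 384 * (n : ℝ) ^ 6 / (π ^ 3 * (n - 1) ^ 3 * (n + 1) * (n + 3) * (n + 5)) := by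
        field_simp
        norm_num

theorem pi_pow_twenty : (3.14 : ℝ) ^ 20 ≤ π ^ 20 := by
  have := Real.pi_gt_d2
  gcongr

/-- rational part of the step -/
def SS (x : ℝ) (n : ℕ) : ℝ := ((x + 1) / (4 * (x + 2))) ^ 7 *
  (((x + 1) ^ 5 * (x + 7)) / (x + 2) ^ 6) ^ n *
  (((x + 1) ^ 3 * (x + 3) * (x + 5) * (x + 7)) / (384 * (x + 2) ^ 6)) ^ 2

theorem SS_small (n : ℕ) (h4 : 4 ≤ n) (h : n < 20) : 1 ≤ (3.14 : ℝ) ^ 20 * SS n n := by
  have h5 : n = 4 ∨ n = 5 ∨ n = 6 ∨ n = 7 ∨ n = 8 ∨ n = 9 ∨ n = 10 ∨ n = 11 ∨ n = 12 ∨ n = 13 ∨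
    n = 14 ∨ n = 15 ∨ n = 16 ∨ n = 17 ∨ n = 18 ∨ n = 19 := by omega
  unfold SS
  rcases h5 with h5 | h5 | h5 | h5 | h5 | h5 | h5 | h5 | h5 | h5 | h5 | h5 | h5 | h5 |
    h5 | h5 <;> rw [h5] <;> norm_num

theorem SS_large (n : ℕ) (h : 20 ≤ n) : 1 ≤ (3.14 : ℝ) ^ 20 * SS n n := by
  have hx : (20 : ℝ) ≤ n := by exact_mod_cast h
  obtain ⟨x, hxn⟩ : ∃ x : ℝ, x = n := ⟨_, rfl⟩
  rw [← hxn] at hx ⊢
  have h0 : 0 < x := by linarith
  unfold SS
  have h1 : (21 / 88 : ℝ) ≤ (x + 1) / (4 * (x + 2)) := by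
    rw [div_le_div_iff₀ (by norm_num) (by positivity)]
    linarith
  have h2 : (1 / 384 : ℝ) ≤ ((x + 1) ^ 3 * (x + 3) * (x + 5) * (x + 7)) / (384 * (x + 2) ^ 6) := by
    rw [div_le_div_iff₀ (by norm_num) (by positivity)]
    obtain ⟨y, hy, rfl⟩ : ∃ y : ℝ, 0 ≤ y ∧ x = y + 20 := ⟨x - 20, by linarith, by ring⟩
    have : 0 ≤ ((y + 20 + 1) ^ 3 * (y + 20 + 3) * (y + 20 + 5) * (y + 20 + 7)) * 384 -
      1 * (384 * (y + 20 + 2) ^ 6) := by
      ring_nf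
      positivity
    linarith
  have h3 : (9 / 20 : ℝ) ≤ (((x + 1) ^ 5 * (x + 7)) / (x + 2) ^ 6) ^ n := by
    have hb := one_add_mul_le_pow (a := ((x + 1) ^ 5 * (x + 7)) / (x + 2) ^ 6 - 1)
      (by
        have : 0 ≤ ((x + 1) ^ 5 * (x + 7)) / (x + 2) ^ 6 := by positivity
        linarith) n
    have e : 1 + (((x + 1) ^ 5 * (x + 7)) / (x + 2) ^ 6 - 1) =
      ((x + 1) ^ 5 * (x + 7)) / (x + 2) ^ 6 := by ring
    rw [e] at hb
    refine le_trans ?_ hb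
    rw [← hxn]
    have h5 : (((x + 1) ^ 5 * (x + 7)) / (x + 2) ^ 6 - 1) =
      -(15 * x ^ 4 + 80 * x ^ 3 + 165 * x ^ 2 + 156 * x + 57) / (x + 2) ^ 6 := by
      field_simp
      ring
    rw [h5]
    have h6 : x * ((15 * x ^ 4 + 80 * x ^ 3 + 165 * x ^ 2 + 156 * x + 57) / (x + 2) ^ 6) ≤
        11 / 20 := by
      rw [← mul_div_assoc, div_le_div_iff₀ (by positivity) (by norm_num)]
      obtain ⟨y, hy, rfl⟩ : ∃ y : ℝ, 0 ≤ y ∧ x = y + 20 := ⟨x - 20, by linarith, by ring⟩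
      have : 0 ≤ 11 * (y + 20 + 2) ^ 6 - (y + 20) * (15 * (y + 20) ^ 4 + 80 * (y + 20) ^ 3 +
          165 * (y + 20) ^ 2 + 156 * (y + 20) + 57) * 20 := by
        ring_nf
        positivity
      linarith
    have h7 : x * (-(15 * x ^ 4 + 80 * x ^ 3 + 165 * x ^ 2 + 156 * x + 57) / (x + 2) ^ 6) =
      -(x * ((15 * x ^ 4 + 80 * x ^ 3 + 165 * x ^ 2 + 156 * x + 57) / (x + 2) ^ 6)) := by ring
    rw [h7]
    linarith
  calc (1 : ℝ) ≤ (3.14 : ℝ) ^ 20 * ((21 / 88) ^ 7 * (9 / 20) * (1 / 384) ^ 2) := by norm_num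
    _ ≤ _ := by gcongr

theorem SS_ge (n : ℕ) (h4 : 4 ≤ n) : 1 ≤ π ^ 20 * SS n n := by
  have h0 : 0 ≤ SS n n := by unfold SS; positivity
  have h1 : 1 ≤ (3.14 : ℝ) ^ 20 * SS n n := by
    rcases lt_or_ge n 20 with h | h
    · exact SS_small n h4 h
    · exact SS_large n h
  calc (1 : ℝ) ≤ (3.14 : ℝ) ^ 20 * SS n n := h1
    _ ≤ _ := mul_le_mul_of_nonneg_right pi_pow_twenty h0

theorem step_ge (n : ℕ) (h4 : 4 ≤ n) (ih : GG n ^ n ≤ aa n ^ 7) :
    GG (n + 2) ^ (n + 2) ≤ aa (n + 2) ^ 7 := by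
  have hG := GG_le (n + 2) (by omega)
  have hG0 := GG_pos (n + 2) (by omega)
  have hG00 := GG_pos n (by omega)
  have ha0 := aa_pos n
  have hS := SS_ge n h4
  unfold SS at hS
  have h0 : (0 : ℝ) < n := by
    have : 0 < n := by omega
    exact_mod_cast this
  push_cast at hG
  have hG2 : GG (n + 2) ≤ 384 * ((n : ℝ) + 2) ^ 6 /
      (π ^ 3 * (n + 1) ^ 3 * (n + 3) * (n + 5) * (n + 7)) := by
    refine hG.trans_eq ?_
    congr 1
    ring
  rw [aa_add_two, mul_pow]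
  calc GG (n + 2) ^ (n + 2) = GG (n + 2) ^ n * GG (n + 2) ^ 2 := pow_add _ _ _
    _ = GG n ^ n * (((n : ℝ) + 2) ^ 6 / ((n + 1) ^ 5 * (n + 7))) ^ n * GG (n + 2) ^ 2 := by
        rw [GG_add_two n (by omega), mul_pow]
    _ ≤ aa n ^ 7 * (((n : ℝ) + 2) ^ 6 / ((n + 1) ^ 5 * (n + 7))) ^ n *
        (384 * ((n : ℝ) + 2) ^ 6 / (π ^ 3 * (n + 1) ^ 3 * (n + 3) * (n + 5) * (n + 7))) ^ 2 := by
        gcongr
    _ ≤ aa n ^ 7 * (((n : ℝ) + 2) ^ 6 / ((n + 1) ^ 5 * (n + 7))) ^ n *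
        (384 * ((n : ℝ) + 2) ^ 6 / (π ^ 3 * (n + 1) ^ 3 * (n + 3) * (n + 5) * (n + 7))) ^ 2 *
        (π ^ 20 * (((n + 1 : ℝ) / (4 * (n + 2))) ^ 7 *
        (((n + 1 : ℝ) ^ 5 * (n + 7)) / (n + 2) ^ 6) ^ n *
        (((n + 1 : ℝ) ^ 3 * (n + 3) * (n + 5) * (n + 7)) / (384 * (n + 2) ^ 6)) ^ 2)) :=
        le_mul_of_one_le_right (by positivity) hS
    _ = aa n ^ 7 * (π ^ 2 * (n + 1) / (4 * (n + 2))) ^ 7 := by
        have hpi := pi_pos
        rw [div_pow _ _ n, div_pow _ _ n]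
        field_simp

theorem bt_three : bt 3 = 1 / 2 := by
  rw [bt_add_two 1 le_rfl, bt_one]; norm_num

theorem bt_four : bt 4 = 4 / (3 * π) := by
  rw [bt_add_two 2 (by norm_num), bt_two]
  push_cast
  field_simp
  norm_num

theorem bt_five : bt 5 = 3 / 8 := by
  rw [bt_add_two 3 (by norm_num), bt_three]; norm_num

theorem aa_two : aa 2 = π ^ 2 / 8 := by
  rw [aa_add_two, aa_zero]; norm_num

theorem aa_three : aa 3 = π ^ 2 / 6 := by
  rw [aa_add_two, aa_one]; push_cast; ring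

theorem aa_four : aa 4 = 3 * π ^ 4 / 128 := by
  rw [aa_add_two, aa_two]; push_cast; ring

theorem aa_five : aa 5 = π ^ 4 / 30 := by
  rw [aa_add_two, aa_three]; push_cast; ring

theorem pi_pow_ge (k : ℕ) : (3.14 : ℝ) ^ k ≤ π ^ k := by
  have := Real.pi_gt_d2
  gcongr

theorem base_one : GG 1 ^ 1 ≤ aa 1 ^ 7 := by
  rw [aa_one]
  unfold GG
  rw [bt_one]
  norm_num

theorem base_two : GG 2 ^ 2 ≤ aa 2 ^ 7 := by
  rw [aa_two]
  unfold GG
  rw [bt_two]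
  have hpi := pi_pos
  have h := pi_pow_ge 26
  have e1 : (48 * ((2 : ℕ) : ℝ) ^ 6 * (2 / π) ^ 6 / ((((2 : ℕ) : ℝ) + 1) * (((2 : ℕ) : ℝ) + 3) *
      (((2 : ℕ) : ℝ) + 5))) ^ 2 = (48 * 64 * 64 / 105) ^ 2 / π ^ 12 := by
    push_cast
    field_simp
    norm_num
  have e3 : (π ^ 2 / 8) ^ 7 = π ^ 14 / 8 ^ 7 := by ring
  rw [e1, e3, div_le_div_iff₀ (by positivity) (by positivity)]
  have e2 : π ^ 14 * π ^ 12 = π ^ 26 := by ring
  rw [e2]
  refine le_trans ?_ h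
  norm_num

theorem base_three : GG 3 ^ 3 ≤ aa 3 ^ 7 := by
  rw [aa_three]
  unfold GG
  rw [bt_three]
  have hpi := pi_pos
  have h := pi_pow_ge 14
  have e2 : (π ^ 2 / 6) ^ 7 = π ^ 14 / 6 ^ 7 := by ring
  rw [e2, le_div_iff₀ (by positivity)]
  refine le_trans ?_ h
  norm_num

theorem base_four : GG 4 ^ 4 ≤ aa 4 ^ 7 := by
  rw [aa_four]
  unfold GG
  rw [bt_four]
  have hpi := pi_pos
  have h := pi_pow_ge 52
  have e1 : (48 * ((4 : ℕ) : ℝ) ^ 6 * (4 / (3 * π)) ^ 6 / ((((4 : ℕ) : ℝ) + 1) *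
      (((4 : ℕ) : ℝ) + 3) * (((4 : ℕ) : ℝ) + 5))) ^ 4 =
      (48 * 4 ^ 6 * 4 ^ 6 / (3 ^ 6 * 315)) ^ 4 / π ^ 24 := by
    push_cast
    field_simp
    norm_num
  have e3 : (3 * π ^ 4 / 128) ^ 7 = 3 ^ 7 * π ^ 28 / 128 ^ 7 := by ring
  rw [e1, e3, div_le_div_iff₀ (by positivity) (by positivity)]
  have e2 : 3 ^ 7 * π ^ 28 * π ^ 24 = 3 ^ 7 * π ^ 52 := by ring
  rw [e2]
  refine le_trans ?_ (mul_le_mul_of_nonneg_left h (by norm_num))
  norm_num

theorem base_five : GG 5 ^ 5 ≤ aa 5 ^ 7 := by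
  rw [aa_five]
  unfold GG
  rw [bt_five]
  have hpi := pi_pos
  have h := pi_pow_ge 28
  have e3 : (π ^ 4 / 30) ^ 7 = π ^ 28 / 30 ^ 7 := by ring
  rw [e3, le_div_iff₀ (by positivity)]
  refine le_trans ?_ h
  norm_num

theorem GG_pow_le (n : ℕ) (hn : 1 ≤ n) : GG n ^ n ≤ aa n ^ 7 := by
  have key : ∀ k : ℕ, GG (k + 4) ^ (k + 4) ≤ aa (k + 4) ^ 7 ∧
      GG (k + 5) ^ (k + 5) ≤ aa (k + 5) ^ 7 := by
    intro k
    induction k with
    | zero => exact ⟨base_four, base_five⟩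
    | succ k ih =>
      refine ⟨?_, ?_⟩
      · have := ih.2
        have e : k + 1 + 4 = k + 5 := by ring
        rw [e]
        exact this
      · have := step_ge (k + 4) (by omega) ih.1
        have e : k + 1 + 5 = k + 4 + 2 := by ring
        rw [e]
        exact this
  rcases lt_or_ge n 4 with h | h
  · have h5 : n = 1 ∨ n = 2 ∨ n = 3 := by omega
    rcases h5 with rfl | rfl | rfl
    · exact base_one
    · exact base_two
    · exact base_three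
  · obtain ⟨k, rfl⟩ := Nat.exists_eq_add_of_le' h
    exact (key k).1

/-- The final numerical inequality. -/
theorem final_numeric (n : ℕ) (hn : 1 ≤ n) {p q Bp Bq : ℝ} (hp2 : 2 ≤ p) (hp7 : p ≤ 7)
    (hq : q = p / (p - 1)) (hBp : 0 < Bp) (hBq : 0 < Bq)
    (h1 : Bp ≤ (1 / (n : ℝ)) ^ ((7 - p) / 5) * (48 * bt n / ((n + 1) * (n + 3) * (n + 5))) ^
      ((p - 2) / 5))
    (h2 : Bq ≤ bt n ^ (2 - q) * (1 / (n : ℝ)) ^ (q - 1)) :
    4 ^ n / (n.factorial : ℝ) ≤ (kp n * Bp ^ (-((n : ℝ) / p))) *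
      (kp n * ((n : ℝ) ^ q * Bq) ^ (-((n : ℝ) / q))) := by
  have h0 : (0 : ℝ) < n := by exact_mod_cast hn
  have hb := bt_pos n hn
  have hk := kp_pos n
  have ha1 := aa_ge_one n
  have ha0 := aa_pos n
  have hG := GG_pow_le n hn
  have hG0 := GG_pos n hn
  have hp0 : 0 < p := by linarith
  have hp1 : 0 < p - 1 := by linarith
  have hq0 : 0 < q := by rw [hq]; positivity
  set L := Real.log n with hL
  set b1 := Real.log (bt n) with hb1
  set b7 := Real.log (48 * bt n / ((n + 1) * (n + 3) * (n + 5))) with hb7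
  have h70 : 0 < 48 * bt n / (((n : ℝ) + 1) * (n + 3) * (n + 5)) := by positivity
  have l1 : Real.log Bp ≤ -((7 - p) / 5) * L + (p - 2) / 5 * b7 := by
    have := Real.log_le_log hBp h1
    rw [Real.log_mul (by positivity) (by positivity), Real.log_rpow (by positivity),
      Real.log_rpow h70, one_div, Real.log_inv] at this
    linarith
  have l2 : Real.log Bq ≤ (2 - q) * b1 - (q - 1) * L := by
    have := Real.log_le_log hBq h2
    rw [Real.log_mul (by positivity) (by positivity), Real.log_rpow (by positivity),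
      Real.log_rpow (by positivity), one_div, Real.log_inv] at this
    linarith
  have lG : Real.log (GG n) = 6 * L + 5 * b1 + b7 := by
    have e : GG n = (n : ℝ) ^ 6 * bt n ^ 5 * (48 * bt n / ((n + 1) * (n + 3) * (n + 5))) := by
      unfold GG; ring
    rw [e, Real.log_mul (by positivity) (by positivity),
      Real.log_mul (by positivity) (by positivity), Real.log_pow, Real.log_pow]
    push_cast
    ring
  have la : Real.log (aa n) = 2 * Real.log (kp n) - Real.log (4 ^ n / (n.factorial : ℝ)) := by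
    have e : aa n = kp n ^ 2 / (4 ^ n / (n.factorial : ℝ)) := by
      unfold aa; field_simp
    rw [e, Real.log_div (by positivity) (by positivity), Real.log_pow]
    push_cast
    ring
  have la0 : 0 ≤ Real.log (aa n) := Real.log_nonneg ha1
  have laG : n * Real.log (GG n) ≤ 7 * Real.log (aa n) := by
    have := Real.log_le_log (by positivity) hG
    rw [Real.log_pow, Real.log_pow] at this
    push_cast at this
    exact this
  rw [← Real.log_le_log_iff (by positivity) (by positivity)]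
  rw [Real.log_mul (by positivity) (by positivity), Real.log_mul (by positivity) (by positivity),
    Real.log_mul (by positivity) (by positivity), Real.log_rpow (by positivity),
    Real.log_rpow (by positivity), Real.log_mul (by positivity) (by positivity),
    Real.log_rpow (by positivity), ← hL]
  set T := Real.log (4 ^ n / (n.factorial : ℝ)) with hT
  set K := Real.log (kp n) with hK
  set A := Real.log (aa n) with hA
  set t := (7 / 5) * ((p - 2) / p) with ht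
  have ht0 : 0 ≤ t := by
    have : 0 ≤ p - 2 := by linarith
    positivity
  have ht1 : t ≤ 1 := by
    rw [ht, ← mul_div_assoc, div_le_one hp0]
    linarith
  have m1 : -((n : ℝ) / p) * (-((7 - p) / 5) * L + (p - 2) / 5 * b7) ≤
      -((n : ℝ) / p) * Real.log Bp := by
    have : 0 < (n : ℝ) / p := by positivity
    nlinarith
  have m2 : -((n : ℝ) / q) * (q * L + ((2 - q) * b1 - (q - 1) * L)) ≤
      -((n : ℝ) / q) * (q * L + Real.log Bq) := by
    have : 0 < (n : ℝ) / q := by positivity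
    nlinarith
  have m3 : -((n : ℝ) / p) * (-((7 - p) / 5) * L + (p - 2) / 5 * b7) +
      -((n : ℝ) / q) * (q * L + ((2 - q) * b1 - (q - 1) * L)) =
      - (t * (n * (6 * L + 5 * b1 + b7)) / 7) := by
    rw [hq, ht]
    field_simp
    ring
  rw [lG] at laG
  have m4 : t * (n * (6 * L + 5 * b1 + b7)) / 7 ≤ A := by
    have h5 : t * (n * (6 * L + 5 * b1 + b7)) ≤ t * (7 * A) := mul_le_mul_of_nonneg_left laG ht0
    nlinarith
  linarith

end

end Pool.Agent.Helper50.Mahler
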