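import Mathlib
import Pool.Agent.Helper50.Mahler.Gauss
import Pool.Agent.Helper50.Mahler.Numeric

open MeasureTheory Measure Set Metric Module Real
open scoped ENNReal RealInnerProductSpace

namespace Pool.Agent.Helper50.Mahler

noncomputable section

theorem memLp_of_bdd {Ω : Type*} [MeasurableSpace Ω] {μ : Measure Ω} [IsFiniteMeasure μ]
    {f : Ω → ℝ} (hf : Measurable f) (h0 : ∀ x, 0 ≤ f x) (h1 : ∀ x, f x ≤ 1) (p : ℝ≥0∞) :
    MemLp f p μ := by
  apply MemLp.of_bound hf.aestronglyMeasurable 1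
  filter_upwards with x
  rw [Real.norm_eq_abs, abs_of_nonneg (h0 x)]
  exact h1 x

/-- log-convexity of moments -/
theorem lyapunov {Ω : Type*} [MeasurableSpace Ω] {μ : Measure Ω} [IsFiniteMeasure μ]
    {f : Ω → ℝ} (hf : Measurable f) (h0 : ∀ x, 0 ≤ f x) (h1 : ∀ x, f x ≤ 1) {a b l r : ℝ}
    (ha : 0 < a) (hb : 0 < b) (hl0 : 0 ≤ l) (hl1 : l ≤ 1) (hr : r = (1 - l) * a + l * b) :
    ∫ x, f x ^ r ∂μ ≤ (∫ x, f x ^ a ∂μ) ^ (1 - l) * (∫ x, f x ^ b ∂μ) ^ l := by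
  rcases hl0.eq_or_lt with rfl | hl0
  · have : r = a := by rw [hr]; ring
    rw [this]; simp
  rcases hl1.eq_or_lt with rfl | hl1
  · have : r = b := by rw [hr]; ring
    rw [this]; simp
  have hl1' : 0 < 1 - l := by linarith
  have hpq : (1 / (1 - l)).HolderConjugate (1 / l) := by
    rw [Real.holderConjugate_iff]
    constructor
    · rw [lt_div_iff₀ hl1']; linarith
    · rw [one_div, one_div, inv_inv, inv_inv]; ring
  have hm1 : Measurable fun x => f x ^ (a * (1 - l)) := hf.pow_const _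
  have hm2 : Measurable fun x => f x ^ (b * l) := hf.pow_const _
  have h := integral_mul_le_Lp_mul_Lq_of_nonneg (μ := μ) hpq
    (f := fun x => f x ^ (a * (1 - l))) (g := fun x => f x ^ (b * l))
    (by filter_upwards with x; exact rpow_nonneg (h0 x) _)
    (by filter_upwards with x; exact rpow_nonneg (h0 x) _)
    (memLp_of_bdd hm1 (fun x => rpow_nonneg (h0 x) _)
      (fun x => rpow_le_one (h0 x) (h1 x) (by positivity)) _)
    (memLp_of_bdd hm2 (fun x => rpow_nonneg (h0 x) _)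
      (fun x => rpow_le_one (h0 x) (h1 x) (by positivity)) _)
  have e1 : ∀ x, f x ^ (a * (1 - l)) * f x ^ (b * l) = f x ^ r := by
    intro x
    rw [← rpow_add_of_nonneg (h0 x) (by positivity) (by positivity), hr]
    congr 1
    ring
  have e2 : ∀ x, (f x ^ (a * (1 - l))) ^ (1 / (1 - l)) = f x ^ a := by
    intro x
    rw [← rpow_mul (h0 x)]
    congr 1
    field_simp
  have e3 : ∀ x, (f x ^ (b * l)) ^ (1 / l) = f x ^ b := by
    intro x
    rw [← rpow_mul (h0 x)]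
    congr 1
    field_simp
  simp only [e1, e2, e3, one_div_one_div] at h
  exact h

/-- spherical mean of `|⟪θ,v⟫|^r` for unit `v` -/
def sm (k : ℕ) (r : ℝ) : ℝ := Gamma ((r + 1) / 2) * Gamma (((k + 1 : ℕ) : ℝ) / 2) /
  (√π * Gamma ((((k + 1 : ℕ) : ℝ) + r) / 2))

theorem ball_vol (n : ℕ) [NeZero n] :
    (volume : Measure (EuclideanSpace ℝ (Fin n))).real (ball 0 1) = kp n := by
  have : Nonempty (Fin n) := ⟨0⟩
  rw [measureReal_def, EuclideanSpace.volume_ball]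
  unfold kp
  rw [Fintype.card_fin]
  have h1 : 0 < Gamma ((n : ℝ) / 2 + 1) := Gamma_pos_of_pos (by positivity)
  simp only [ENNReal.ofReal_one, one_pow, one_mul]
  rw [ENNReal.toReal_ofReal (by positivity)]

theorem sm_eq (k : ℕ) {r : ℝ} (hr : -1 < r) {v : EuclideanSpace ℝ (Fin (k + 1))}
    (hv : ‖v‖ = 1) :
    ∫ θ : sphere (0 : EuclideanSpace ℝ (Fin (k + 1))) 1, |⟪θ.1, v⟫| ^ r
      ∂(volume : Measure (EuclideanSpace ℝ (Fin (k + 1)))).toSphere =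
      sm k r * (((k + 1 : ℕ) : ℝ) * kp (k + 1)) := by
  rw [sphere_moment k hr hv]
  unfold sm kp
  have h1 : 0 < Gamma (((k + 1 : ℕ) : ℝ) / 2) := Gamma_pos_of_pos (by positivity)
  have h2 : 0 < Gamma ((((k + 1 : ℕ) : ℝ) + r) / 2) := by
    apply Gamma_pos_of_pos
    push_cast
    have : (0 : ℝ) ≤ k := Nat.cast_nonneg k
    linarith
  rw [Gamma_add_one (by positivity)]
  have e : ((k : ℝ) + 1 + r) / 2 = (((k + 1 : ℕ) : ℝ) + r) / 2 := by push_cast; ring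
  rw [e, pow_succ]
  have : 0 < √π := sqrt_pos.2 pi_pos
  field_simp

theorem sm_pos (k : ℕ) {r : ℝ} (hr : 0 < r) : 0 < sm k r := by
  unfold sm
  have h1 : 0 < Gamma (((k + 1 : ℕ) : ℝ) / 2) := Gamma_pos_of_pos (by positivity)
  have h2 : 0 < Gamma ((((k + 1 : ℕ) : ℝ) + r) / 2) := Gamma_pos_of_pos (by positivity)
  have h3 : 0 < Gamma ((r + 1) / 2) := Gamma_pos_of_pos (by positivity)
  have : 0 < √π := sqrt_pos.2 pi_pos
  positivity

theorem sm_one (k : ℕ) : sm k 1 = bt (k + 1) := by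
  unfold sm bt
  have e : ((1 : ℝ) + 1) / 2 = 1 := by norm_num
  rw [e, Gamma_one, one_mul]

theorem sm_two (k : ℕ) : sm k 2 = 1 / ((k + 1 : ℕ) : ℝ) := by
  unfold sm
  have e : ((2 : ℝ) + 1) / 2 = 1 / 2 + 1 := by norm_num
  have e2 : (((k + 1 : ℕ) : ℝ) + 2) / 2 = ((k + 1 : ℕ) : ℝ) / 2 + 1 := by ring
  rw [e, e2, Gamma_add_one (by norm_num), Gamma_one_half_eq, Gamma_add_one (by positivity)]
  have h1 : 0 < Gamma (((k + 1 : ℕ) : ℝ) / 2) := Gamma_pos_of_pos (by positivity)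
  have : 0 < √π := sqrt_pos.2 pi_pos
  field_simp

theorem sm_seven (k : ℕ) : sm k 7 = 48 * bt (k + 1) /
    ((((k + 1 : ℕ) : ℝ) + 1) * (((k + 1 : ℕ) : ℝ) + 3) * (((k + 1 : ℕ) : ℝ) + 5)) := by
  unfold sm bt
  have e : ((7 : ℝ) + 1) / 2 = ((3 : ℕ) : ℝ) + 1 := by norm_num
  have e2 : (((k + 1 : ℕ) : ℝ) + 7) / 2 = (((((k + 1 : ℕ) : ℝ) + 1) / 2) + 1 + 1) + 1 := by ring
  rw [e, e2, Gamma_nat_eq_factorial, Gamma_add_one (by positivity), Gamma_add_one (by positivity),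
    Gamma_add_one (by positivity)]
  have h1 : 0 < Gamma (((k + 1 : ℕ) : ℝ) / 2) := Gamma_pos_of_pos (by positivity)
  have h2 : 0 < Gamma ((((k + 1 : ℕ) : ℝ) + 1) / 2) := Gamma_pos_of_pos (by positivity)
  have : 0 < √π := sqrt_pos.2 pi_pos
  have h3 : ((3 : ℕ).factorial : ℝ) = 6 := by norm_num [Nat.factorial]
  rw [h3]
  field_simp
  ring

theorem sm_lyapunov (k : ℕ) {a b l r : ℝ} (ha : 0 < a) (hb : 0 < b) (hl0 : 0 ≤ l) (hl1 : l ≤ 1)
    (hr : r = (1 - l) * a + l * b) : sm k r ≤ sm k a ^ (1 - l) * sm k b ^ l := by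
  have hv : ‖EuclideanSpace.single (0 : Fin (k+1)) (1 : ℝ)‖ = 1 := by simp
  have hrpos : 0 < r := by
    rw [hr]
    rcases hl0.eq_or_lt with rfl | hl0
    · simpa using ha
    · have : 0 ≤ (1 - l) * a := mul_nonneg (by linarith) ha.le
      have : 0 < l * b := mul_pos hl0 hb
      linarith
  have h := lyapunov (μ := (volume : Measure (EuclideanSpace ℝ (Fin (k + 1)))).toSphere)
    (f := fun θ => |⟪θ.1, EuclideanSpace.single (0 : Fin (k+1)) (1 : ℝ)⟫|)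
    (by fun_prop) (fun θ => abs_nonneg _) (fun θ => by
      refine (abs_real_inner_le_norm _ _).trans ?_
      rw [hv, mem_sphere_zero_iff_norm.1 θ.2]
      norm_num) ha hb hl0 hl1 hr
  rw [sm_eq k (by linarith) hv, sm_eq k (by linarith) hv, sm_eq k (by linarith) hv] at h
  have hC : 0 < (((k + 1 : ℕ) : ℝ) * kp (k + 1)) := mul_pos (by positivity) (kp_pos _)
  have hA := sm_pos k ha
  have hB := sm_pos k hb
  rw [mul_rpow hA.le hC.le, mul_rpow hB.le hC.le] at h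
  have e : (((k + 1 : ℕ) : ℝ) * kp (k + 1)) ^ (1 - l) * (((k + 1 : ℕ) : ℝ) * kp (k + 1)) ^ l =
    (((k + 1 : ℕ) : ℝ) * kp (k + 1)) := by
    rw [← rpow_add hC]
    have : 1 - l + l = 1 := by ring
    rw [this, rpow_one]
  have h2 : sm k r * (((k + 1 : ℕ) : ℝ) * kp (k + 1)) ≤
      sm k a ^ (1 - l) * sm k b ^ l * (((k + 1 : ℕ) : ℝ) * kp (k + 1)) := by
    calc _ ≤ _ := h
      _ = sm k a ^ (1 - l) * sm k b ^ l * ((((k + 1 : ℕ) : ℝ) * kp (k + 1)) ^ (1 - l) *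
        (((k + 1 : ℕ) : ℝ) * kp (k + 1)) ^ l) := by ring
      _ = _ := by rw [e]
  exact le_of_mul_le_mul_right h2 hC

theorem sm_final (k : ℕ) {p q : ℝ} (hp2 : 2 ≤ p) (hp7 : p ≤ 7) (hq : q = p / (p - 1)) :
    4 ^ (k + 1) / ((k + 1).factorial : ℝ) ≤
      (kp (k + 1) * (sm k p) ^ (-(((k + 1 : ℕ) : ℝ) / p))) *
      (kp (k + 1) * (((k + 1 : ℕ) : ℝ) ^ q * sm k q) ^ (-(((k + 1 : ℕ) : ℝ) / q))) := by
  have hp1 : 0 < p - 1 := by linarith
  have hq0 : 0 < q := by rw [hq]; positivity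
  have hq1 : 1 ≤ q := by rw [hq, le_div_iff₀ hp1]; linarith
  have hq2 : q ≤ 2 := by rw [hq, div_le_iff₀ hp1]; linarith
  apply final_numeric (k + 1) (by omega) hp2 hp7 hq (sm_pos k (by linarith)) (sm_pos k hq0)
  · have h := sm_lyapunov k (a := 2) (b := 7) (l := (p - 2) / 5) (r := p) (by norm_num)
      (by norm_num) (by linarith) (by linarith) (by ring)
    have e : 1 - (p - 2) / 5 = (7 - p) / 5 := by ring
    rw [e, sm_two, sm_seven] at h
    exact h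
  · have h := sm_lyapunov k (a := 1) (b := 2) (l := q - 1) (r := q) (by norm_num)
      (by norm_num) (by linarith) (by linarith) (by ring)
    have e : 1 - (q - 1) = 2 - q := by ring
    rw [e, sm_two, sm_one] at h
    exact h

section Theorem

variable {Ω : Type*} [MeasurableSpace Ω] {ν : Measure Ω} [IsProbabilityMeasure ν] {k : ℕ}
  {u : Ω → EuclideanSpace ℝ (Fin (k + 1))}

theorem abs_inner_le (hu1 : ∀ ω, ‖u ω‖ = 1) (x : EuclideanSpace ℝ (Fin (k + 1))) (ω : Ω) :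
    |⟪x, u ω⟫| ≤ ‖x‖ := by
  have := abs_real_inner_le_norm x (u ω)
  rwa [hu1, mul_one] at this

theorem int_inner (hu : Measurable u) (hu1 : ∀ ω, ‖u ω‖ = 1) {r : ℝ} (hr : 0 < r)
    (x : EuclideanSpace ℝ (Fin (k + 1))) : Integrable (fun ω => |⟪x, u ω⟫| ^ r) ν := by
  apply Integrable.of_bound (C := ‖x‖ ^ r)
  · exact ((measurable_const.inner hu).abs.pow_const r).aestronglyMeasurable
  · filter_upwards with ω
    rw [Real.norm_eq_abs, abs_of_nonneg (rpow_nonneg (abs_nonneg _) _)]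
    exact rpow_le_rpow (abs_nonneg _) (abs_inner_le hu1 x ω) hr.le

/-- the norm `(∫ |⟪x,u⟫|^r)^{1/r}` -/
def NN (ν : Measure Ω) (u : Ω → EuclideanSpace ℝ (Fin (k + 1))) (r : ℝ)
    (x : EuclideanSpace ℝ (Fin (k + 1))) : ℝ := (∫ ω, |⟪x, u ω⟫| ^ r ∂ν) ^ (1 / r)

theorem NN_smul {r : ℝ} (hr : 0 < r) (c : ℝ) (x : EuclideanSpace ℝ (Fin (k + 1))) (hc : 0 < c) :
    NN ν u r (c • x) = c * NN ν u r x := by
  unfold NN
  have e : ∀ ω, |⟪c • x, u ω⟫| ^ r = c ^ r * |⟪x, u ω⟫| ^ r := by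
    intro ω
    rw [real_inner_smul_left, abs_mul, abs_of_pos hc, mul_rpow hc.le (abs_nonneg _)]
  simp_rw [e]
  have h0 : 0 ≤ ∫ ω, |⟪x, u ω⟫| ^ r ∂ν :=
    integral_nonneg (fun ω => rpow_nonneg (abs_nonneg _) _)
  rw [integral_const_mul, mul_rpow (rpow_nonneg hc.le _) h0, ← rpow_mul hc.le]
  congr 1
  rw [mul_one_div_cancel hr.ne', rpow_one]

theorem NN_rpow {r : ℝ} (hr : 0 < r) (x : EuclideanSpace ℝ (Fin (k + 1))) :
    NN ν u r x ^ r = ∫ ω, |⟪x, u ω⟫| ^ r ∂ν := by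
  unfold NN
  have h0 : 0 ≤ ∫ ω, |⟪x, u ω⟫| ^ r ∂ν :=
    integral_nonneg (fun ω => rpow_nonneg (abs_nonneg _) _)
  rw [← rpow_mul h0, one_div_mul_cancel hr.ne', rpow_one]

theorem NN_nonneg (r : ℝ) (x : EuclideanSpace ℝ (Fin (k + 1))) : 0 ≤ NN ν u r x :=
  rpow_nonneg (integral_nonneg (fun ω => rpow_nonneg (abs_nonneg _) _)) _

theorem NN_measurable (hu : Measurable u) (r : ℝ) : Measurable (NN ν u r) := by
  unfold NN
  apply Measurable.pow_const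
  have h : StronglyMeasurable
      (fun z : EuclideanSpace ℝ (Fin (k + 1)) × Ω => |⟪z.1, u z.2⟫| ^ r) := by
    apply Measurable.stronglyMeasurable
    exact (measurable_fst.inner (hu.comp measurable_snd)).abs.pow_const r
  exact h.integral_prod_right'.measurable

theorem moment_lower (hu : Measurable u) (hu1 : ∀ ω, ‖u ω‖ = 1)
    (hiso : ∀ x, ∫ ω, ⟪x, u ω⟫ ^ 2 ∂ν = ‖x‖ ^ 2 / ((k + 1 : ℕ) : ℝ)) {r : ℝ} (hr : 0 < r) :
    ∃ c : ℝ, 0 < c ∧ ∀ x : EuclideanSpace ℝ (Fin (k + 1)), ‖x‖ = 1 →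
      c ≤ ∫ ω, |⟪x, u ω⟫| ^ r ∂ν := by
  obtain ⟨n, hn⟩ : ∃ n : ℝ, n = ((k + 1 : ℕ) : ℝ) := ⟨_, rfl⟩
  have hn0 : 0 < n := by rw [hn]; positivity
  rw [← hn] at hiso
  have hint2 : ∀ x : EuclideanSpace ℝ (Fin (k + 1)), Integrable (fun ω => ⟪x, u ω⟫ ^ 2) ν := by
    intro x
    have := int_inner (ν := ν) hu hu1 two_pos x
    simpa only [rpow_two, sq_abs] using this
  rcases le_or_gt r 2 with h2 | h2
  · refine ⟨1 / n, by positivity, fun x hx => ?_⟩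
    have h := hiso x
    rw [hx, one_pow] at h
    rw [← h]
    apply integral_mono (hint2 x) (int_inner hu hu1 hr x)
    intro ω
    have h1 : |⟪x, u ω⟫| ≤ 1 := by rw [← hx]; exact abs_inner_le hu1 x ω
    have e : ⟪x, u ω⟫ ^ 2 = |⟪x, u ω⟫| ^ (2 : ℝ) := by rw [rpow_two, sq_abs]
    change ⟪x, u ω⟫ ^ 2 ≤ |⟪x, u ω⟫| ^ r
    rw [e]
    exact rpow_le_rpow_of_exponent_ge' (abs_nonneg _) h1 hr.le h2
  · refine ⟨(1 / n) ^ (r / 2), by positivity, fun x hx => ?_⟩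
    have h := hiso x
    rw [hx, one_pow] at h
    have hJ : Integrable (fun ω => (1 / n) ^ (r / 2) * (1 + r / 2 * (n * ⟪x, u ω⟫ ^ 2 - 1))) ν := by
      apply Integrable.const_mul
      apply (integrable_const _).add
      apply Integrable.const_mul
      exact ((hint2 x).const_mul n).sub (integrable_const _)
    have hval : ∫ ω, (1 / n) ^ (r / 2) * (1 + r / 2 * (n * ⟪x, u ω⟫ ^ 2 - 1)) ∂ν =
        (1 / n) ^ (r / 2) := by
      have j1 : Integrable (fun ω => n * ⟪x, u ω⟫ ^ 2) ν := (hint2 x).const_mul n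
      have j2 : Integrable (fun ω => n * ⟪x, u ω⟫ ^ 2 - 1) ν := j1.sub (integrable_const 1)
      have j3 : Integrable (fun ω => r / 2 * (n * ⟪x, u ω⟫ ^ 2 - 1)) ν := j2.const_mul _
      rw [integral_const_mul, integral_add (integrable_const 1) j3, integral_const_mul,
        integral_sub j1 (integrable_const 1), integral_const_mul, h]
      simp
      rw [mul_inv_cancel₀ hn0.ne']
      ring
    rw [← hval]
    apply integral_mono hJ (int_inner hu hu1 hr x)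
    intro ω
    have hb := one_add_mul_self_le_rpow_one_add (s := n * ⟪x, u ω⟫ ^ 2 - 1) (p := r / 2)
      (by nlinarith [sq_nonneg ⟪x, u ω⟫]) (by linarith)
    have e1 : 1 + (n * ⟪x, u ω⟫ ^ 2 - 1) = n * ⟪x, u ω⟫ ^ 2 := by ring
    rw [e1] at hb
    calc (1 / n) ^ (r / 2) * (1 + r / 2 * (n * ⟪x, u ω⟫ ^ 2 - 1))
        ≤ (1 / n) ^ (r / 2) * (n * ⟪x, u ω⟫ ^ 2) ^ (r / 2) := by gcongr
      _ = |⟪x, u ω⟫| ^ r := by
        rw [← mul_rpow (by positivity) (by positivity)]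
        have e2 : 1 / n * (n * ⟪x, u ω⟫ ^ 2) = |⟪x, u ω⟫| ^ (2 : ℝ) := by
          rw [rpow_two, sq_abs]; field_simp
        rw [e2, ← rpow_mul (abs_nonneg _)]
        congr 1
        ring

theorem moment_upper (hu : Measurable u) (hu1 : ∀ ω, ‖u ω‖ = 1) {r : ℝ} (hr : 0 < r)
    {x : EuclideanSpace ℝ (Fin (k + 1))} (hx : ‖x‖ = 1) :
    ∫ ω, |⟪x, u ω⟫| ^ r ∂ν ≤ 1 := by
  have h1 : ∫ ω, |⟪x, u ω⟫| ^ r ∂ν ≤ ∫ _ω, (1 : ℝ) ∂ν := by
    apply integral_mono (int_inner hu hu1 hr x) (integrable_const _)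
    intro ω
    have h1 : |⟪x, u ω⟫| ≤ 1 := by rw [← hx]; exact abs_inner_le hu1 x ω
    exact rpow_le_one (abs_nonneg _) h1 hr.le
  simpa using h1

/-- mean of the `r`-th power over the sphere -/
theorem mean_NN (hu : Measurable u) (hu1 : ∀ ω, ‖u ω‖ = 1) {r : ℝ} (hr : 0 < r) :
    ∫ θ : sphere (0 : EuclideanSpace ℝ (Fin (k + 1))) 1, NN ν u r θ.1 ^ r
      ∂(volume : Measure (EuclideanSpace ℝ (Fin (k + 1)))).toSphere =
      sm k r * (((k + 1 : ℕ) : ℝ) * kp (k + 1)) := by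
  simp_rw [NN_rpow hr]
  rw [integral_integral_swap]
  · simp_rw [fun ω => sm_eq k (r := r) (by linarith) (hu1 ω)]
    simp
  · apply Integrable.of_bound (C := 1)
    · apply Measurable.aestronglyMeasurable
      exact ((measurable_subtype_coe.comp measurable_fst).inner
        (hu.comp measurable_snd)).abs.pow_const r
    · filter_upwards with z
      rw [Real.norm_eq_abs, Function.uncurry_def,
        abs_of_nonneg (rpow_nonneg (abs_nonneg _) _)]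
      have h1 : |⟪z.1.1, u z.2⟫| ≤ 1 := by
        have := abs_inner_le hu1 z.1.1 z.2
        rwa [mem_sphere_zero_iff_norm.1 z.1.2] at this
      exact rpow_le_one (abs_nonneg _) h1 hr.le

/-- volume bound for the ball of a multiple of `NN` -/
theorem vol_NN (hu : Measurable u) (hu1 : ∀ ω, ‖u ω‖ = 1)
    (hiso : ∀ x, ∫ ω, ⟪x, u ω⟫ ^ 2 ∂ν = ‖x‖ ^ 2 / ((k + 1 : ℕ) : ℝ)) {r : ℝ} (hr : 0 < r)
    {d : ℝ} (hd : 0 < d) :
    ENNReal.ofReal (kp (k + 1) * (d ^ r * sm k r) ^ (-(((k + 1 : ℕ) : ℝ) / r))) ≤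
      volume {x : EuclideanSpace ℝ (Fin (k + 1)) | d * NN ν u r x < 1} := by
  obtain ⟨c, hc, hcx⟩ := moment_lower hu hu1 hiso hr
  have hlow : ∀ x : EuclideanSpace ℝ (Fin (k + 1)), ‖x‖ = 1 → c ^ (1 / r) ≤ NN ν u r x :=
    fun x hx => rpow_le_rpow hc.le (hcx x hx) (by positivity)
  have hup : ∀ x : EuclideanSpace ℝ (Fin (k + 1)), ‖x‖ = 1 → NN ν u r x ≤ 1 := by
    intro x hx
    exact rpow_le_one (integral_nonneg (fun ω => rpow_nonneg (abs_nonneg _) _))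
      (moment_upper hu hu1 hr hx) (by positivity)
  have hpos : ∀ x : EuclideanSpace ℝ (Fin (k + 1)), x ≠ 0 → 0 < NN ν u r x := by
    intro x hx
    have hxn : 0 < ‖x‖ := norm_pos_iff.2 hx
    have h1 : x = ‖x‖ • (‖x‖⁻¹ • x) := by
      rw [smul_smul, mul_inv_cancel₀ hxn.ne', one_smul]
    rw [h1, NN_smul hr _ _ hxn]
    have h2 : ‖(‖x‖⁻¹ • x)‖ = 1 := by
      rw [norm_smul, norm_inv, norm_norm, inv_mul_cancel₀ hxn.ne']
    have h3 : 0 < c ^ (1 / r) := rpow_pos_of_pos hc _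
    exact mul_pos hxn (h3.trans_le (hlow _ h2))
  have hc' : 0 < c ^ (1 / r) := rpow_pos_of_pos hc _
  have hkey := measure_lt_one_ge (volume : Measure (EuclideanSpace ℝ (Fin (k + 1))))
    (fun x => d * NN ν u r x) ((NN_measurable hu r).const_mul d)
    (fun x hx => mul_pos hd (hpos x hx))
    (fun s x hs => by
      change d * NN ν u r (s • x) = s * (d * NN ν u r x)
      rw [NN_smul hr _ _ hs]; ring)
    (c := d * c ^ (1 / r)) (C := d * 1) (mul_pos hd hc')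
    (fun x hx => by gcongr; exact hlow x hx) (fun x hx => by gcongr; exact hup x hx)
    (p := r) hr (A := d ^ r * sm k r) (by
      have e : ∀ θ : sphere (0 : EuclideanSpace ℝ (Fin (k + 1))) 1,
          (d * NN ν u r θ.1) ^ r = d ^ r * NN ν u r θ.1 ^ r := by
        intro θ
        rw [mul_rpow hd.le (NN_nonneg r _)]
      simp_rw [e]
      rw [integral_const_mul, mean_NN hu hu1 hr, ball_vol, finrank_euclideanSpace_fin]
      have := kp_pos (k + 1)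
      field_simp)
  rw [ball_vol, finrank_euclideanSpace_fin] at hkey
  exact hkey

theorem inner_le_NN (hu : Measurable u) (hu1 : ∀ ω, ‖u ω‖ = 1)
    (hiso : ∀ x, ∫ ω, ⟪x, u ω⟫ ^ 2 ∂ν = ‖x‖ ^ 2 / ((k + 1 : ℕ) : ℝ)) {p q : ℝ}
    (hpq : p.HolderConjugate q) (x y : EuclideanSpace ℝ (Fin (k + 1))) :
    ⟪x, y⟫ ≤ NN ν u p x * (((k + 1 : ℕ) : ℝ) * NN ν u q y) := by
  obtain ⟨n, hn⟩ : ∃ n : ℝ, n = ((k + 1 : ℕ) : ℝ) := ⟨_, rfl⟩
  have hn0 : 0 < n := by rw [hn]; positivity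
  rw [← hn] at hiso ⊢
  have hint2 : ∀ x : EuclideanSpace ℝ (Fin (k + 1)), Integrable (fun ω => ⟪x, u ω⟫ ^ 2) ν := by
    intro x
    have := int_inner (ν := ν) hu hu1 two_pos x
    simpa only [rpow_two, sq_abs] using this
  have hpol : ⟪x, y⟫ = n * ∫ ω, ⟪x, u ω⟫ * ⟪y, u ω⟫ ∂ν := by
    have e : ∀ ω, ⟪x, u ω⟫ * ⟪y, u ω⟫ = (1 / 4) * (⟪x + y, u ω⟫ ^ 2 - ⟪x - y, u ω⟫ ^ 2) := by
      intro ω
      rw [inner_add_left, inner_sub_left]
      ring
    simp_rw [e]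
    rw [integral_const_mul, integral_sub (hint2 _) (hint2 _), hiso, hiso,
      norm_add_sq_real, norm_sub_sq_real]
    field_simp
    ring
  have hhol := integral_mul_le_Lp_mul_Lq_of_nonneg (μ := ν) hpq
    (f := fun ω => |⟪x, u ω⟫|) (g := fun ω => |⟪y, u ω⟫|)
    (by filter_upwards with ω; exact abs_nonneg _)
    (by filter_upwards with ω; exact abs_nonneg _)
    (MemLp.of_bound (measurable_const.inner hu).abs.aestronglyMeasurable ‖x‖ (by
      filter_upwards with ω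
      rw [Real.norm_eq_abs, abs_abs]
      exact abs_inner_le hu1 x ω))
    (MemLp.of_bound (measurable_const.inner hu).abs.aestronglyMeasurable ‖y‖ (by
      filter_upwards with ω
      rw [Real.norm_eq_abs, abs_abs]
      exact abs_inner_le hu1 y ω))
  have hle : ∫ ω, ⟪x, u ω⟫ * ⟪y, u ω⟫ ∂ν ≤ ∫ ω, |⟪x, u ω⟫| * |⟪y, u ω⟫| ∂ν := by
    have hm : Measurable fun ω => ⟪x, u ω⟫ * ⟪y, u ω⟫ :=
      (measurable_const.inner hu).mul (measurable_const.inner hu)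
    have hbd : ∀ ω, |⟪x, u ω⟫| * |⟪y, u ω⟫| ≤ ‖x‖ * ‖y‖ := fun ω =>
      mul_le_mul (abs_inner_le hu1 x ω) (abs_inner_le hu1 y ω) (abs_nonneg _) (norm_nonneg _)
    apply integral_mono
    · apply Integrable.of_bound (C := ‖x‖ * ‖y‖) hm.aestronglyMeasurable
      filter_upwards with ω
      rw [Real.norm_eq_abs, abs_mul]
      exact hbd ω
    · apply Integrable.of_bound (C := ‖x‖ * ‖y‖)
      · exact ((measurable_const.inner hu).abs.mul (measurable_const.inner hu).abs).aestronglyMeasurable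
      · filter_upwards with ω
        rw [Real.norm_eq_abs, abs_mul, abs_abs, abs_abs]
        exact hbd ω
    · intro ω
      change ⟪x, u ω⟫ * ⟪y, u ω⟫ ≤ |⟪x, u ω⟫| * |⟪y, u ω⟫|
      rw [← abs_mul]
      exact le_abs_self _
  rw [hpol]
  calc n * ∫ ω, ⟪x, u ω⟫ * ⟪y, u ω⟫ ∂ν
      ≤ n * ((∫ ω, |⟪x, u ω⟫| ^ p ∂ν) ^ (1 / p) * (∫ ω, |⟪y, u ω⟫| ^ q ∂ν) ^ (1 / q)) := by
        gcongr
        exact hle.trans hhol
    _ = NN ν u p x * (n * NN ν u q y) := by unfold NN; ring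

/-- Theorem B -/
theorem iso_volume (hu : Measurable u) (hu1 : ∀ ω, ‖u ω‖ = 1)
    (hiso : ∀ x, ∫ ω, ⟪x, u ω⟫ ^ 2 ∂ν = ‖x‖ ^ 2 / ((k + 1 : ℕ) : ℝ)) {p : ℝ}
    (hp2 : 2 ≤ p) (hp7 : p ≤ 7) {K : Set (EuclideanSpace ℝ (Fin (k + 1)))}
    (hK : ∀ x, x ∈ K ↔ ∫ ω, |⟪x, u ω⟫| ^ p ∂ν ≤ 1) :
    ENNReal.ofReal (4 ^ (k + 1) / ((k + 1).factorial : ℝ)) ≤
      volume K * volume {y | ∀ x ∈ K, ⟪x, y⟫ ≤ 1} := by
  have hp0 : 0 < p := by linarith
  obtain ⟨q, hq⟩ : ∃ q : ℝ, q = p / (p - 1) := ⟨_, rfl⟩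
  have hp1 : 0 < p - 1 := by linarith
  have hq0 : 0 < q := by rw [hq]; positivity
  have hpq : p.HolderConjugate q := by
    rw [Real.holderConjugate_iff]
    refine ⟨by linarith, ?_⟩
    rw [hq]
    field_simp
    ring
  have h1 := vol_NN hu hu1 hiso hp0 one_pos
  have h2 := vol_NN hu hu1 hiso hq0 (d := ((k + 1 : ℕ) : ℝ)) (by positivity)
  have hs1 : {x : EuclideanSpace ℝ (Fin (k + 1)) | 1 * NN ν u p x < 1} ⊆ K := by
    intro x hx
    rw [mem_setOf_eq, one_mul] at hx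
    rw [hK, ← NN_rpow hp0]
    exact rpow_le_one (NN_nonneg _ _) hx.le hp0.le
  have hs2 : {y : EuclideanSpace ℝ (Fin (k + 1)) | ((k + 1 : ℕ) : ℝ) * NN ν u q y < 1} ⊆
      {y | ∀ x ∈ K, ⟪x, y⟫ ≤ 1} := by
    intro y hy x hx
    rw [mem_setOf_eq] at hy
    rw [hK] at hx
    have h3 := inner_le_NN hu hu1 hiso hpq x y
    have h4 : NN ν u p x ≤ 1 := by
      unfold NN
      exact rpow_le_one (integral_nonneg (fun ω => rpow_nonneg (abs_nonneg _) _)) hx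
        (by positivity)
    calc ⟪x, y⟫ ≤ _ := h3
      _ ≤ 1 * 1 := mul_le_mul h4 hy.le (mul_nonneg (by positivity) (NN_nonneg _ _)) zero_le_one
      _ = 1 := one_mul 1
  have hf := sm_final k hp2 hp7 hq
  rw [one_rpow, one_mul] at h1
  have hk := kp_pos (k + 1)
  calc ENNReal.ofReal (4 ^ (k + 1) / ((k + 1).factorial : ℝ))
      ≤ ENNReal.ofReal ((kp (k + 1) * (sm k p) ^ (-(((k + 1 : ℕ) : ℝ) / p))) *
      (kp (k + 1) * (((k + 1 : ℕ) : ℝ) ^ q * sm k q) ^ (-(((k + 1 : ℕ) : ℝ) / q)))) :=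
        ENNReal.ofReal_le_ofReal hf
    _ = ENNReal.ofReal (kp (k + 1) * (sm k p) ^ (-(((k + 1 : ℕ) : ℝ) / p))) *
      ENNReal.ofReal (kp (k + 1) * (((k + 1 : ℕ) : ℝ) ^ q * sm k q) ^
        (-(((k + 1 : ℕ) : ℝ) / q))) := by
        apply ENNReal.ofReal_mul
        have := sm_pos k hp0
        positivity
    _ ≤ _ := by
        gcongr
        · exact h1.trans (measure_mono hs1)
        · exact h2.trans (measure_mono hs2)

end Theorem

end

end Pool.Agent.Helper50.Mahler
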