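import Mathlib
import Pool.Agent.Helper50.Mahler.Iso

open MeasureTheory Measure Set Metric Module Real
open scoped ENNReal RealInnerProductSpace

namespace Pool.Agent.Helper50.Mahler

noncomputable section

section Max

variable {E : Type*} [NormedAddCommGroup E] [NormedSpace ℝ E] [FiniteDimensional ℝ E]
  [Nontrivial E] {F : Type*} [NormedAddCommGroup F] [NormedSpace ℝ F]

/-- A linear injective image of `End E` in a normed space has an element of maximal determinant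
in the unit ball. -/
theorem exists_max_det (L : (E →L[ℝ] E) →ₗ[ℝ] F) (hL : Function.Injective L) :
    ∃ A₀ : E →L[ℝ] E, LinearMap.det (A₀ : E →ₗ[ℝ] E) ≠ 0 ∧ ‖L A₀‖ = 1 ∧
      ∀ A : E →L[ℝ] E, |LinearMap.det (A : E →ₗ[ℝ] E)| ≤
        |LinearMap.det (A₀ : E →ₗ[ℝ] E)| * ‖L A‖ ^ (finrank ℝ E) := by
  have hn : 0 < finrank ℝ E := finrank_pos
  have hLc : Continuous L := LinearMap.continuous_of_finiteDimensional L
  obtain ⟨C, hC, hanti⟩ := L.exists_antilipschitzWith (LinearMap.ker_eq_bot.2 hL)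
  set S : Set (E →L[ℝ] E) := {A | ‖L A‖ ≤ 1} with hS
  have hSc : IsClosed S := isClosed_le (hLc.norm) continuous_const
  have hSb : Bornology.IsBounded S := by
    rw [isBounded_iff_forall_norm_le]
    refine ⟨C, fun A hA => ?_⟩
    have h1 := hanti.le_mul_dist A 0
    rw [map_zero, dist_zero_right, dist_zero_right] at h1
    calc ‖A‖ ≤ C * ‖L A‖ := h1
      _ ≤ C * 1 := by gcongr; exact hA
      _ = C := mul_one _
  have hcomp : IsCompact S := isCompact_of_isClosed_isBounded hSc hSb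
  have hdet : Continuous fun A : E →L[ℝ] E => |LinearMap.det (A : E →ₗ[ℝ] E)| := by
    have : Continuous fun A : E →L[ℝ] E => LinearMap.det (A : E →ₗ[ℝ] E) :=
      ContinuousLinearMap.continuous_det
    exact this.abs
  have hne : S.Nonempty := ⟨0, by simp [hS]⟩
  obtain ⟨A₀, hA₀S, hmax⟩ := hcomp.exists_isMaxOn hne hdet.continuousOn
  have hmax' : ∀ A ∈ S, |LinearMap.det (A : E →ₗ[ℝ] E)| ≤ |LinearMap.det (A₀ : E →ₗ[ℝ] E)| :=
    fun A hA => hmax hA
  have hscale : ∀ (A : E →L[ℝ] E) (c : ℝ), LinearMap.det ((c • A : E →L[ℝ] E) : E →ₗ[ℝ] E) =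
      c ^ (finrank ℝ E) * LinearMap.det (A : E →ₗ[ℝ] E) := by
    intro A c
    rw [ContinuousLinearMap.toLinearMap_smul, LinearMap.det_smul]
  have hbound : ∀ A : E →L[ℝ] E, |LinearMap.det (A : E →ₗ[ℝ] E)| ≤
        |LinearMap.det (A₀ : E →ₗ[ℝ] E)| * ‖L A‖ ^ (finrank ℝ E) := by
    intro A
    by_cases hA : A = 0
    · subst hA
      have : LinearMap.det ((0 : E →L[ℝ] E) : E →ₗ[ℝ] E) = 0 := by
        rw [ContinuousLinearMap.toLinearMap_zero, LinearMap.det_zero, zero_pow hn.ne']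
      rw [this, abs_zero]
      positivity
    · have hLA : 0 < ‖L A‖ := by
        rw [norm_pos_iff]
        intro h
        exact hA (hL (by rw [h, map_zero]))
      have h1 := hmax' (‖L A‖⁻¹ • A) (by
        change ‖L (‖L A‖⁻¹ • A)‖ ≤ 1
        rw [map_smul, norm_smul, norm_inv, norm_norm, inv_mul_cancel₀ hLA.ne'])
      rw [hscale, abs_mul, abs_of_pos (by positivity)] at h1
      rw [inv_pow, inv_mul_le_iff₀ (by positivity)] at h1
      linarith
  have hdet0 : LinearMap.det (A₀ : E →ₗ[ℝ] E) ≠ 0 := by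
    intro h0
    have h1 := hbound (ContinuousLinearMap.id ℝ E)
    rw [h0, abs_zero, zero_mul, ContinuousLinearMap.coe_id, LinearMap.det_id, abs_one] at h1
    linarith
  refine ⟨A₀, hdet0, ?_, hbound⟩
  have h1 := hbound A₀
  have h2 : 0 < |LinearMap.det (A₀ : E →ₗ[ℝ] E)| := abs_pos.2 hdet0
  have h3 : 1 ≤ ‖L A₀‖ ^ (finrank ℝ E) := by
    by_contra h
    rw [not_le] at h
    nlinarith
  have h4 : ‖L A₀‖ ≤ 1 := hA₀S
  apply le_antisymm h4
  by_contra h
  rw [not_le] at h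
  have := pow_lt_one₀ (norm_nonneg _) h hn.ne'
  linarith

end Max

theorem le_of_small {x y C ε : ℝ} (hC : 0 < C) (hε : 0 < ε)
    (h : ∀ t, 0 < t → t ≤ ε → x ≤ y + C * t) : x ≤ y := by
  by_contra hxy
  rw [not_le] at hxy
  have hd : 0 < x - y := by linarith
  have ht : 0 < min ε ((x - y) / (2 * C)) := lt_min hε (by positivity)
  have h1 := h _ ht (min_le_left _ _)
  have h2 : C * min ε ((x - y) / (2 * C)) ≤ C * ((x - y) / (2 * C)) := by
    gcongr
    exact min_le_right _ _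
  have h3 : C * ((x - y) / (2 * C)) = (x - y) / 2 := by field_simp
  linarith

theorem variation {Ω : Type*} [MeasurableSpace Ω] {ν : Measure Ω} [IsProbabilityMeasure ν]
    {s : Ω → ℝ} (hs : Measurable s) (h0 : ∀ ω, 0 ≤ s ω) (h1 : ∀ ω, s ω ≤ 1) {α β : ℝ}
    (hα : 0 < α) (hβ : 0 < β)
    (h : ∀ τ : ℝ, -1 < τ → τ < 1 → (1 + τ) ^ α ≤ ∫ ω, (1 + τ * s ω) ^ β ∂ν) :
    ∫ ω, s ω ∂ν = α / β := by
  have hints : Integrable s ν := by
    apply Integrable.of_bound hs.aestronglyMeasurable 1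
    filter_upwards with ω
    rw [Real.norm_eq_abs, abs_of_nonneg (h0 ω)]
    exact h1 ω
  set I := ∫ ω, s ω ∂ν with hI
  set ε := min (1 / 2) (1 / β) with hε
  have hεpos : 0 < ε := lt_min (by norm_num) (by positivity)
  have key : ∀ τ : ℝ, |τ| ≤ ε → α * (τ - 2 * τ ^ 2) ≤ β * τ * I + β ^ 2 * τ ^ 2 := by
    intro τ hτ
    have hτ1 : |τ| ≤ 1 / 2 := hτ.trans (min_le_left _ _)
    have hτ2 : |τ| ≤ 1 / β := hτ.trans (min_le_right _ _)
    have hτ3 := abs_le.1 hτ1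
    have hm : 0 < 1 + τ := by linarith [hτ3.1]
    have hlow : 1 + α * (τ - 2 * τ ^ 2) ≤ (1 + τ) ^ α := by
      rw [rpow_def_of_pos hm]
      have hlog := Real.one_sub_inv_le_log_of_pos hm
      have hlog2 : τ - 2 * τ ^ 2 ≤ 1 - (1 + τ)⁻¹ := by
        have e : 1 - (1 + τ)⁻¹ - (τ - 2 * τ ^ 2) = τ ^ 2 * (1 + 2 * τ) / (1 + τ) := by
          field_simp
          ring
        have : 0 ≤ τ ^ 2 * (1 + 2 * τ) / (1 + τ) := by
          have : 0 ≤ 1 + 2 * τ := by linarith [hτ3.1]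
          positivity
        linarith
      have hex := add_one_le_exp (Real.log (1 + τ) * α)
      nlinarith
    have hup : ∫ ω, (1 + τ * s ω) ^ β ∂ν ≤ ∫ ω, (1 + β * τ * s ω + β ^ 2 * τ ^ 2) ∂ν := by
      have hpos : ∀ ω, 0 < 1 + τ * s ω := by
        intro ω
        have : |τ * s ω| ≤ 1 / 2 := by
          rw [abs_mul, abs_of_nonneg (h0 ω)]
          calc |τ| * s ω ≤ 1 / 2 * 1 := mul_le_mul hτ1 (h1 ω) (h0 ω) (by norm_num)
            _ = 1 / 2 := by norm_num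
        linarith [(abs_le.1 this).1]
      have hptw : ∀ ω, (1 + τ * s ω) ^ β ≤ 1 + β * τ * s ω + β ^ 2 * τ ^ 2 := by
        intro ω
        rw [rpow_def_of_pos (hpos ω)]
        have hl : Real.log (1 + τ * s ω) ≤ τ * s ω := by
          have := log_le_sub_one_of_pos (hpos ω)
          linarith
        have hx1 : |β * τ * s ω| ≤ 1 := by
          rw [abs_mul, abs_mul, abs_of_pos hβ, abs_of_nonneg (h0 ω)]
          calc β * |τ| * s ω ≤ β * (1 / β) * 1 := by
                apply mul_le_mul _ (h1 ω) (h0 ω) (by positivity)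
                gcongr
            _ = 1 := by field_simp
        have hab := Real.abs_exp_sub_one_sub_id_le hx1
        have hab2 := (abs_le.1 hab).2
        have hmono : exp (Real.log (1 + τ * s ω) * β) ≤ exp (β * τ * s ω) := by
          apply exp_le_exp.2
          nlinarith
        have hsq : (β * τ * s ω) ^ 2 ≤ β ^ 2 * τ ^ 2 := by
          have : s ω ^ 2 ≤ 1 := pow_le_one₀ (h0 ω) (h1 ω)
          calc (β * τ * s ω) ^ 2 = β ^ 2 * τ ^ 2 * s ω ^ 2 := by ring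
            _ ≤ β ^ 2 * τ ^ 2 * 1 := by gcongr
            _ = _ := mul_one _
        linarith
      apply integral_mono
      · apply Integrable.of_bound (C := 2 ^ β)
        · exact ((measurable_const.add (hs.const_mul τ)).pow_const β).aestronglyMeasurable
        · filter_upwards with ω
          rw [Real.norm_eq_abs, abs_of_nonneg (rpow_nonneg (hpos ω).le _)]
          apply rpow_le_rpow (hpos ω).le _ hβ.le
          have : |τ * s ω| ≤ 1 / 2 := by
            rw [abs_mul, abs_of_nonneg (h0 ω)]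
            calc |τ| * s ω ≤ 1 / 2 * 1 := mul_le_mul hτ1 (h1 ω) (h0 ω) (by norm_num)
              _ = 1 / 2 := by norm_num
          linarith [(abs_le.1 this).2]
      · exact ((integrable_const _).add (hints.const_mul _)).add (integrable_const _)
      · exact hptw
    have hval : ∫ ω, (1 + β * τ * s ω + β ^ 2 * τ ^ 2) ∂ν = 1 + β * τ * I + β ^ 2 * τ ^ 2 := by
      have j1 : Integrable (fun ω => β * τ * s ω) ν := hints.const_mul _
      have j2 : Integrable (fun ω => 1 + β * τ * s ω) ν := (integrable_const 1).add j1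
      rw [integral_add j2 (integrable_const _), integral_add (integrable_const 1) j1,
        integral_const_mul]
      simp [hI]
    have := h τ (by linarith [hτ3.1]) (by linarith [hτ3.2])
    linarith
  have hC : 0 < β ^ 2 + 2 * α := by positivity
  have hle1 : α ≤ β * I := by
    apply le_of_small hC hεpos
    intro t ht0 htε
    have := key t (by rw [abs_of_pos ht0]; exact htε)
    have h5 : t * α ≤ t * (β * I + (β ^ 2 + 2 * α) * t) := by nlinarith
    exact le_of_mul_le_mul_left h5 ht0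
  have hle2 : β * I ≤ α := by
    apply le_of_small hC hεpos
    intro t ht0 htε
    have := key (-t) (by rw [abs_neg, abs_of_pos ht0]; exact htε)
    have h5 : t * (β * I) ≤ t * (α + (β ^ 2 + 2 * α) * t) := by nlinarith
    exact le_of_mul_le_mul_left h5 ht0
  rw [eq_div_iff hβ.ne']
  linarith

section Lewis

variable {Ω : Type*} [MeasurableSpace Ω] {μ : Measure Ω} {k : ℕ}

/-- the linear map `A ↦ A ∘ f` -/
def LL {q : ℝ≥0∞} [Fact (1 ≤ q)] (f : Lp (EuclideanSpace ℝ (Fin (k + 1))) q μ) :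
    (EuclideanSpace ℝ (Fin (k + 1)) →L[ℝ] EuclideanSpace ℝ (Fin (k + 1))) →ₗ[ℝ]
      Lp (EuclideanSpace ℝ (Fin (k + 1))) q μ where
  toFun A := A.compLp f
  map_add' A B := ContinuousLinearMap.add_compLp A B f
  map_smul' c A := ContinuousLinearMap.smul_compLp c A f

theorem norm_LL {p : ℝ} (hp : 0 < p) [Fact (1 ≤ ENNReal.ofReal p)]
    {a : Ω → EuclideanSpace ℝ (Fin (k + 1))} (hLp : MemLp a (ENNReal.ofReal p) μ)
    (A : EuclideanSpace ℝ (Fin (k + 1)) →L[ℝ] EuclideanSpace ℝ (Fin (k + 1))) :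
    ‖LL (hLp.toLp a) A‖ ^ p = ∫ ω, ‖A (a ω)‖ ^ p ∂μ := by
  have h1 : LL (hLp.toLp a) A =ᵐ[μ] fun ω => A (a ω) := by
    change A.compLp (hLp.toLp a) =ᵐ[μ] _
    refine (A.coeFn_compLp' (hLp.toLp a)).trans ?_
    filter_upwards [hLp.coeFn_toLp] with ω hω
    rw [hω]
  have h2 : MemLp (fun ω => A (a ω)) (ENNReal.ofReal p) μ := A.comp_memLp' hLp
  have h0 : 0 ≤ ∫ ω, ‖A (a ω)‖ ^ p ∂μ :=
    integral_nonneg (fun ω => rpow_nonneg (norm_nonneg _) _)
  rw [Lp.norm_def, eLpNorm_congr_ae h1, h2.eLpNorm_eq_integral_rpow_norm (by simpa using hp)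
    ENNReal.ofReal_ne_top, ENNReal.toReal_ofReal hp.le, ENNReal.toReal_ofReal (by positivity),
    ← rpow_mul h0, inv_mul_cancel₀ hp.ne', rpow_one]

theorem LL_injective {p : ℝ} (hp : 0 < p) [Fact (1 ≤ ENNReal.ofReal p)]
    {a : Ω → EuclideanSpace ℝ (Fin (k + 1))} (hLp : MemLp a (ENNReal.ofReal p) μ)
    (hinj : ∀ x, (∀ᵐ ω ∂μ, ⟪x, a ω⟫ = 0) → x = 0) :
    Function.Injective (LL (hLp.toLp a)) := by
  rw [← LinearMap.ker_eq_bot, LinearMap.ker_eq_bot']
  intro A hA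
  have h1 : LL (hLp.toLp a) A =ᵐ[μ] fun ω => A (a ω) := by
    change A.compLp (hLp.toLp a) =ᵐ[μ] _
    refine (A.coeFn_compLp' (hLp.toLp a)).trans ?_
    filter_upwards [hLp.coeFn_toLp] with ω hω
    rw [hω]
  rw [hA] at h1
  have h2 : ∀ᵐ ω ∂μ, A (a ω) = 0 := by
    filter_upwards [h1, Lp.coeFn_zero (EuclideanSpace ℝ (Fin (k + 1))) (ENNReal.ofReal p) μ]
      with ω h3 h4
    rw [← h3, h4]
    rfl
  have h3 : ∀ z, ContinuousLinearMap.adjoint A z = 0 := by
    intro z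
    apply hinj
    filter_upwards [h2] with ω hω
    rw [ContinuousLinearMap.adjoint_inner_left, hω, inner_zero_right]
  ext1 y
  have h4 : ∀ z, ⟪z, A y⟫ = 0 := by
    intro z
    rw [← ContinuousLinearMap.adjoint_inner_left, h3, inner_zero_left]
  have h5 := h4 (A y)
  rw [inner_self_eq_zero] at h5
  rw [h5]
  rfl

/-- rank one perturbation of the identity -/
def TT (t : ℝ) (x : EuclideanSpace ℝ (Fin (k + 1))) :
    EuclideanSpace ℝ (Fin (k + 1)) →L[ℝ] EuclideanSpace ℝ (Fin (k + 1)) :=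
  LinearMap.toContinuousLinearMap
    (LinearMap.transvection (t • (innerSL ℝ x : EuclideanSpace ℝ (Fin (k + 1)) →ₗ[ℝ] ℝ)) x)

theorem TT_apply (t : ℝ) (x y : EuclideanSpace ℝ (Fin (k + 1))) :
    TT t x y = y + (t * ⟪x, y⟫) • x := by
  simp [TT, LinearMap.transvection.apply]

theorem TT_det (t : ℝ) {x : EuclideanSpace ℝ (Fin (k + 1))} (hx : ‖x‖ = 1) :
    LinearMap.det (TT t x : EuclideanSpace ℝ (Fin (k + 1)) →ₗ[ℝ] EuclideanSpace ℝ (Fin (k + 1))) =
      1 + t := by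
  have h := LinearMap.transvection.det
    (t • (innerSL ℝ x : EuclideanSpace ℝ (Fin (k + 1)) →ₗ[ℝ] ℝ)) x
  have e : ((TT t x : EuclideanSpace ℝ (Fin (k + 1)) →L[ℝ] EuclideanSpace ℝ (Fin (k + 1))) :
    EuclideanSpace ℝ (Fin (k + 1)) →ₗ[ℝ] EuclideanSpace ℝ (Fin (k + 1))) =
    LinearMap.transvection (t • (innerSL ℝ x : EuclideanSpace ℝ (Fin (k + 1)) →ₗ[ℝ] ℝ)) x := by
    unfold TT
    rw [LinearMap.coe_toContinuousLinearMap]
  rw [e, h]
  simp [hx]

theorem TT_norm_sq (t : ℝ) {x : EuclideanSpace ℝ (Fin (k + 1))} (hx : ‖x‖ = 1)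
    (y : EuclideanSpace ℝ (Fin (k + 1))) :
    ‖TT t x y‖ ^ 2 = ‖y‖ ^ 2 + (2 * t + t ^ 2) * ⟪x, y⟫ ^ 2 := by
  rw [TT_apply, norm_add_sq_real, real_inner_smul_right, norm_smul, hx, real_inner_comm]
  rw [Real.norm_eq_abs, mul_one, sq_abs]
  ring

theorem lewis {p : ℝ} (hp2 : 2 ≤ p)
    {a : Ω → EuclideanSpace ℝ (Fin (k + 1))} (ham : Measurable a)
    (hLp : MemLp a (ENNReal.ofReal p) μ)
    (hinj : ∀ x, (∀ᵐ ω ∂μ, ⟪x, a ω⟫ = 0) → x = 0) :
    ∃ (A : EuclideanSpace ℝ (Fin (k + 1)) →L[ℝ] EuclideanSpace ℝ (Fin (k + 1)))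
      (ν : Measure Ω) (u : Ω → EuclideanSpace ℝ (Fin (k + 1))),
      IsProbabilityMeasure ν ∧ LinearMap.det (A : EuclideanSpace ℝ (Fin (k + 1)) →ₗ[ℝ]
        EuclideanSpace ℝ (Fin (k + 1))) ≠ 0 ∧ Measurable u ∧ (∀ ω, ‖u ω‖ = 1) ∧
      (∀ x, ∫ ω, ⟪x, u ω⟫ ^ 2 ∂ν = ‖x‖ ^ 2 / ((k + 1 : ℕ) : ℝ)) ∧
      (∀ x, ∫ ω, |⟪x, u ω⟫| ^ p ∂ν = ∫ ω, |⟪x, A (a ω)⟫| ^ p ∂μ) := by
  have hp0 : 0 < p := by linarith
  have hfact : Fact (1 ≤ ENNReal.ofReal p) := ⟨by
    rw [← ENNReal.ofReal_one]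
    exact ENNReal.ofReal_le_ofReal (by linarith)⟩
  obtain ⟨A₀, hdet, hnorm, hmax⟩ := exists_max_det (LL (hLp.toLp a)) (LL_injective hp0 hLp hinj)
  rw [finrank_euclideanSpace_fin] at hmax
  obtain ⟨b, hb⟩ : ∃ b : Ω → EuclideanSpace ℝ (Fin (k + 1)), b = fun ω => A₀ (a ω) := ⟨_, rfl⟩
  have hbm : Measurable b := by rw [hb]; exact A₀.continuous.measurable.comp ham
  have hbLp : MemLp b (ENNReal.ofReal p) μ := by rw [hb]; exact A₀.comp_memLp' hLp
  have hbint : Integrable (fun ω => ‖b ω‖ ^ p) μ := by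
    have := hbLp.integrable_norm_rpow (by simpa using hp0) ENNReal.ofReal_ne_top
    rwa [ENNReal.toReal_ofReal hp0.le] at this
  have hdm : Measurable fun ω => ENNReal.ofReal (‖b ω‖ ^ p) :=
    (hbm.norm.pow_const p).ennreal_ofReal
  obtain ⟨ν, hν⟩ : ∃ ν : Measure Ω, ν = μ.withDensity (fun ω => ENNReal.ofReal (‖b ω‖ ^ p)) :=
    ⟨_, rfl⟩
  have hνint : ∀ g : Ω → ℝ, ∫ ω, g ω ∂ν = ∫ ω, ‖b ω‖ ^ p * g ω ∂μ := by
    intro g
    rw [hν, integral_withDensity_eq_integral_toReal_smul hdm (by simp)]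
    congr 1
    ext ω
    rw [ENNReal.toReal_ofReal (rpow_nonneg (norm_nonneg _) _), smul_eq_mul]
  have hbtot : ∫ ω, ‖b ω‖ ^ p ∂μ = 1 := by
    rw [hb, ← norm_LL hp0 hLp A₀, hnorm, one_rpow]
  have hprob : IsProbabilityMeasure ν := by
    constructor
    rw [hν, withDensity_apply _ MeasurableSet.univ, Measure.restrict_univ,
      ← ofReal_integral_eq_lintegral_ofReal hbint
        (by filter_upwards with ω; exact rpow_nonneg (norm_nonneg _) _), hbtot,
      ENNReal.ofReal_one]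
  obtain ⟨u, hu⟩ : ∃ u : Ω → EuclideanSpace ℝ (Fin (k + 1)), u = fun ω =>
      if b ω = 0 then EuclideanSpace.single (0 : Fin (k+1)) (1 : ℝ) else ‖b ω‖⁻¹ • b ω := ⟨_, rfl⟩
  have hum : Measurable u := by
    rw [hu]
    apply Measurable.ite
    · exact hbm (measurableSet_singleton 0)
    · exact measurable_const
    · exact hbm.norm.inv.smul hbm
  have hu1 : ∀ ω, ‖u ω‖ = 1 := by
    intro ω
    rw [hu]
    simp only
    split_ifs with h
    · simp
    · rw [norm_smul, norm_inv, norm_norm, inv_mul_cancel₀ (norm_ne_zero_iff.2 h)]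
  have hbu : ∀ ω, b ω = ‖b ω‖ • u ω := by
    intro ω
    rw [hu]
    simp only
    split_ifs with h
    · rw [h]; simp
    · rw [smul_smul, mul_inv_cancel₀ (norm_ne_zero_iff.2 h), one_smul]
  have hinner : ∀ x ω, ⟪x, b ω⟫ = ‖b ω‖ * ⟪x, u ω⟫ := by
    intro x ω
    conv_lhs => rw [hbu ω]
    rw [real_inner_smul_right]
  -- isotropy for unit vectors
  have hunit : ∀ x : EuclideanSpace ℝ (Fin (k + 1)), ‖x‖ = 1 →
      ∫ ω, ⟪x, u ω⟫ ^ 2 ∂ν = 1 / ((k + 1 : ℕ) : ℝ) := by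
    intro x hx
    have hsm : Measurable fun ω => ⟪x, u ω⟫ ^ 2 := (measurable_const.inner hum).pow_const 2
    have hs1 : ∀ ω, ⟪x, u ω⟫ ^ 2 ≤ 1 := by
      intro ω
      have h1 := abs_real_inner_le_norm x (u ω)
      rw [hx, hu1 ω, mul_one] at h1
      rw [← sq_abs]
      exact pow_le_one₀ (abs_nonneg _) h1
    have hn0 : (0 : ℝ) < ((k + 1 : ℕ) : ℝ) := by positivity
    have hvar := variation (ν := ν) hsm (fun ω => sq_nonneg _) hs1
      (α := p / (2 * ((k + 1 : ℕ) : ℝ))) (β := p / 2) (by positivity) (by positivity) (by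
      intro τ hτ1 hτ2
      have h1τ : 0 < 1 + τ := by linarith
      obtain ⟨t, ht⟩ : ∃ t : ℝ, t = √(1 + τ) - 1 := ⟨_, rfl⟩
      have ht1 : 1 + t = √(1 + τ) := by rw [ht]; ring
      have ht2 : 2 * t + t ^ 2 = τ := by
        have := sq_sqrt h1τ.le
        rw [← ht1] at this
        linarith
      have hm := hmax ((TT t x).comp A₀)
      have hdc : LinearMap.det (((TT t x).comp A₀ : EuclideanSpace ℝ (Fin (k + 1)) →L[ℝ]
          EuclideanSpace ℝ (Fin (k + 1))) : EuclideanSpace ℝ (Fin (k + 1)) →ₗ[ℝ]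
          EuclideanSpace ℝ (Fin (k + 1))) = (1 + t) * LinearMap.det (A₀ :
          EuclideanSpace ℝ (Fin (k + 1)) →ₗ[ℝ] EuclideanSpace ℝ (Fin (k + 1))) := by
        rw [ContinuousLinearMap.toLinearMap_comp, LinearMap.det_comp, TT_det t hx]
      rw [hdc, abs_mul, ht1, abs_of_nonneg (sqrt_nonneg _)] at hm
      have hd0 : 0 < |LinearMap.det (A₀ : EuclideanSpace ℝ (Fin (k + 1)) →ₗ[ℝ]
          EuclideanSpace ℝ (Fin (k + 1)))| := abs_pos.2 hdet
      have hm2 : √(1 + τ) ≤ ‖LL (hLp.toLp a) ((TT t x).comp A₀)‖ ^ (k + 1) := by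
        rw [mul_comm] at hm
        exact le_of_mul_le_mul_left hm hd0
      have hm3 : (√(1 + τ)) ^ (p / ((k + 1 : ℕ) : ℝ)) ≤
          (‖LL (hLp.toLp a) ((TT t x).comp A₀)‖ ^ (k + 1)) ^ (p / ((k + 1 : ℕ) : ℝ)) :=
        rpow_le_rpow (sqrt_nonneg _) hm2 (by positivity)
      have hm4 : (‖LL (hLp.toLp a) ((TT t x).comp A₀)‖ ^ (k + 1)) ^ (p / ((k + 1 : ℕ) : ℝ)) =
          ∫ ω, ‖TT t x (b ω)‖ ^ p ∂μ := by
        rw [← rpow_natCast, ← rpow_mul (norm_nonneg _)]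
        have e : ((k + 1 : ℕ) : ℝ) * (p / ((k + 1 : ℕ) : ℝ)) = p := by field_simp
        rw [e, norm_LL hp0 hLp, hb]
        rfl
      have hm5 : (√(1 + τ)) ^ (p / ((k + 1 : ℕ) : ℝ)) = (1 + τ) ^ (p / (2 * ((k + 1 : ℕ) : ℝ))) := by
        rw [sqrt_eq_rpow, ← rpow_mul h1τ.le]
        congr 1
        field_simp
      rw [hm4, hm5] at hm3
      refine hm3.trans_eq ?_
      rw [hνint]
      congr 1
      ext ω
      have hn1 := TT_norm_sq t hx (b ω)
      rw [ht2, hinner] at hn1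
      have hn2 : ‖TT t x (b ω)‖ ^ 2 = ‖b ω‖ ^ 2 * (1 + τ * ⟪x, u ω⟫ ^ 2) := by
        rw [hn1]; ring
      have hpos : 0 ≤ 1 + τ * ⟪x, u ω⟫ ^ 2 := by
        nlinarith [hs1 ω, sq_nonneg ⟪x, u ω⟫]
      calc ‖TT t x (b ω)‖ ^ p = (‖TT t x (b ω)‖ ^ 2) ^ (p / 2) := by
            rw [← rpow_natCast, ← rpow_mul (norm_nonneg _)]
            congr 1
            push_cast
            ring
        _ = (‖b ω‖ ^ 2) ^ (p / 2) * (1 + τ * ⟪x, u ω⟫ ^ 2) ^ (p / 2) := by
            rw [hn2, mul_rpow (sq_nonneg _) hpos]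
        _ = ‖b ω‖ ^ p * (1 + τ * ⟪x, u ω⟫ ^ 2) ^ (p / 2) := by
            congr 1
            rw [← rpow_natCast, ← rpow_mul (norm_nonneg _)]
            congr 1
            push_cast
            ring)
    rw [hvar]
    field_simp
  refine ⟨A₀, ν, u, hprob, hdet, hum, hu1, ?_, ?_⟩
  · intro x
    by_cases hx : x = 0
    · subst hx
      simp
    · have hxn : 0 < ‖x‖ := norm_pos_iff.2 hx
      have h1 := hunit (‖x‖⁻¹ • x) (by
        rw [norm_smul, norm_inv, norm_norm, inv_mul_cancel₀ hxn.ne'])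
      have h2 : ∀ ω, ⟪x, u ω⟫ ^ 2 = ‖x‖ ^ 2 * ⟪‖x‖⁻¹ • x, u ω⟫ ^ 2 := by
        intro ω
        rw [real_inner_smul_left]
        field_simp
      simp_rw [h2]
      rw [integral_const_mul, h1]
      ring
  · intro x
    rw [hνint]
    congr 1
    ext ω
    have e : A₀ (a ω) = b ω := by rw [hb]
    rw [e, hinner, abs_mul, abs_of_nonneg (norm_nonneg _), mul_rpow (norm_nonneg _) (abs_nonneg _)]

end Lewis

end

end Pool.Agent.Helper50.Mahler
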