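import Mathlib
import Pool.Agent.Helper50.Mahler.Lewis

open MeasureTheory Measure Set Metric Module Real
open scoped ENNReal RealInnerProductSpace

namespace Pool.Agent.Helper50.Mahler

noncomputable section

/-- the polar set -/
def polarBody {n : ℕ} (K : Set (EuclideanSpace ℝ (Fin n))) : Set (EuclideanSpace ℝ (Fin n)) :=
  {y | ∀ x ∈ K, ⟪x, y⟫ ≤ 1}

theorem det_adjoint' {n : ℕ} (A : EuclideanSpace ℝ (Fin n) →ₗ[ℝ] EuclideanSpace ℝ (Fin n)) :
    LinearMap.det (LinearMap.adjoint A) = LinearMap.det A := by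
  have b := EuclideanSpace.basisFun (Fin n) ℝ
  rw [← LinearMap.det_toMatrix b.toBasis, ← LinearMap.det_toMatrix b.toBasis,
    LinearMap.toMatrix_adjoint, Matrix.det_conjTranspose]
  simp

/-- volume product does not increase under the linear image used -/
theorem volume_linear {n : ℕ} {A : EuclideanSpace ℝ (Fin n) →ₗ[ℝ] EuclideanSpace ℝ (Fin n)}
    (hA : LinearMap.det A ≠ 0) (K : Set (EuclideanSpace ℝ (Fin n))) :
    volume (LinearMap.adjoint A ⁻¹' K) * volume (polarBody (LinearMap.adjoint A ⁻¹' K)) ≤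
      volume K * volume (polarBody K) := by
  have hA' : LinearMap.det (LinearMap.adjoint A) ≠ 0 := by rw [det_adjoint']; exact hA
  obtain ⟨e, he⟩ : ∃ e : EuclideanSpace ℝ (Fin n) ≃ₗ[ℝ] EuclideanSpace ℝ (Fin n),
      e = A.equivOfDetNeZero hA := ⟨_, rfl⟩
  have heA : (e : EuclideanSpace ℝ (Fin n) →ₗ[ℝ] EuclideanSpace ℝ (Fin n)) = A := by
    rw [he]; rfl
  have hdet : LinearMap.det (e.symm : EuclideanSpace ℝ (Fin n) →ₗ[ℝ] EuclideanSpace ℝ (Fin n)) =
      (LinearMap.det A)⁻¹ := by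
    rw [LinearEquiv.det_coe_symm, heA]
  have hdet0 : LinearMap.det (e.symm : EuclideanSpace ℝ (Fin n) →ₗ[ℝ] EuclideanSpace ℝ (Fin n)) ≠
      0 := by rw [hdet]; exact inv_ne_zero hA
  obtain ⟨g, hg⟩ : ∃ g : EuclideanSpace ℝ (Fin n) ≃ₗ[ℝ] EuclideanSpace ℝ (Fin n),
      g = (LinearMap.adjoint A).equivOfDetNeZero hA' := ⟨_, rfl⟩
  have hgA : ∀ x, LinearMap.adjoint A (g.symm x) = x := by
    intro x
    have h1 : (g : EuclideanSpace ℝ (Fin n) →ₗ[ℝ] EuclideanSpace ℝ (Fin n)) =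
        LinearMap.adjoint A := by rw [hg]; rfl
    rw [← h1]
    exact g.apply_symm_apply x
  have hsub : polarBody (LinearMap.adjoint A ⁻¹' K) ⊆
      (e.symm : EuclideanSpace ℝ (Fin n) →ₗ[ℝ] EuclideanSpace ℝ (Fin n)) ⁻¹' (polarBody K) := by
    intro y hy z hz
    have h1 := hy (g.symm z) (by rw [mem_preimage, hgA]; exact hz)
    have h2 : ⟪z, e.symm y⟫ = ⟪g.symm z, y⟫ := by
      conv_lhs => rw [← hgA z]
      rw [LinearMap.adjoint_inner_left, ← heA]
      simp
    rw [← h2] at h1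
    exact h1
  calc volume (LinearMap.adjoint A ⁻¹' K) * volume (polarBody (LinearMap.adjoint A ⁻¹' K))
      ≤ volume (LinearMap.adjoint A ⁻¹' K) *
        volume ((e.symm : EuclideanSpace ℝ (Fin n) →ₗ[ℝ] EuclideanSpace ℝ (Fin n)) ⁻¹'
          (polarBody K)) := by gcongr
    _ = volume K * volume (polarBody K) := by
      rw [addHaar_preimage_linearMap volume hA', addHaar_preimage_linearMap volume hdet0,
        hdet, det_adjoint', inv_inv]
      have h3 : ENNReal.ofReal |(LinearMap.det A)⁻¹| * ENNReal.ofReal |LinearMap.det A| = 1 := by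
        rw [← ENNReal.ofReal_mul (abs_nonneg _), ← abs_mul, inv_mul_cancel₀ hA, abs_one,
          ENNReal.ofReal_one]
      calc ENNReal.ofReal |(LinearMap.det A)⁻¹| * volume K *
            (ENNReal.ofReal |LinearMap.det A| * volume (polarBody K))
          = (ENNReal.ofReal |(LinearMap.det A)⁻¹| * ENNReal.ofReal |LinearMap.det A|) *
            (volume K * volume (polarBody K)) := by ring
        _ = _ := by rw [h3, one_mul]

theorem main_aux {k : ℕ} {Ω : Type*} [MeasurableSpace Ω] (μ : Measure Ω) (p : ℝ≥0∞)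
    [Fact (1 ≤ p)] (hp2 : 2 ≤ p) (hp7 : p ≤ 7)
    (K : Set (EuclideanSpace ℝ (Fin (k + 1)))) (hKc : IsCompact K)
    (J : EuclideanSpace ℝ (Fin (k + 1)) →ₗ[ℝ] Lp ℝ p μ) (hJ : ∀ x, x ∈ K ↔ ‖J x‖ ≤ 1) :
    ENNReal.ofReal (4 ^ (k + 1) / ((k + 1).factorial : ℝ)) ≤
      volume K * volume (polarBody K) := by
  have hptop : p ≠ ∞ := ne_top_of_le_ne_top (by norm_num) hp7
  obtain ⟨r, hr⟩ : ∃ r : ℝ, r = p.toReal := ⟨_, rfl⟩
  have hpr : p = ENNReal.ofReal r := by rw [hr, ENNReal.ofReal_toReal hptop]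
  have hr2 : 2 ≤ r := by
    rw [hr]
    have := ENNReal.toReal_mono hptop hp2
    simpa using this
  have hr7 : r ≤ 7 := by
    rw [hr]
    have := ENNReal.toReal_mono (by norm_num) hp7
    simpa using this
  have hr0 : 0 < r := by linarith
  -- the coordinate functions
  obtain ⟨a, ha⟩ : ∃ a : Ω → EuclideanSpace ℝ (Fin (k + 1)),
      a = fun ω => ∑ i, (J (EuclideanSpace.single i (1 : ℝ)) ω) •
        (EuclideanSpace.single i (1 : ℝ)) := ⟨_, rfl⟩
  have ham : Measurable a := by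
    rw [ha]
    apply Finset.measurable_sum
    intro i _
    exact (Lp.stronglyMeasurable _).measurable.smul_const _
  have haLp : MemLp a p μ := by
    rw [ha]
    apply memLp_finsetSum
    intro i _
    exact (ContinuousLinearMap.toSpanSingleton ℝ
      (EuclideanSpace.single i (1 : ℝ) : EuclideanSpace ℝ (Fin (k + 1)))).comp_memLp'
      (Lp.memLp (J (EuclideanSpace.single i (1 : ℝ))))
  have hax : ∀ x, (J x : Ω → ℝ) =ᵐ[μ] fun ω => ⟪x, a ω⟫ := by
    intro x
    have hx : x = ∑ i, x i • (EuclideanSpace.single i (1 : ℝ) : EuclideanSpace ℝ (Fin (k + 1))) := by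
      have := (EuclideanSpace.basisFun (Fin (k + 1)) ℝ).sum_repr x
      simp only [EuclideanSpace.basisFun_repr, EuclideanSpace.basisFun_apply] at this
      exact this.symm
    have h1 : J x = ∑ i, x i • J (EuclideanSpace.single i (1 : ℝ)) := by
      conv_lhs => rw [hx]
      rw [_root_.map_sum]
      simp_rw [map_smul]
    rw [h1]
    have h2 := Lp.coeFn_finsetSum (μ := μ) (p := p) Finset.univ
      (fun i => x i • J (EuclideanSpace.single i (1 : ℝ)))
    have h3 : ∀ᵐ ω ∂μ, ∀ i, (x i • J (EuclideanSpace.single i (1 : ℝ)) : Lp ℝ p μ) ω =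
        x i * J (EuclideanSpace.single i (1 : ℝ)) ω := by
      rw [ae_all_iff]
      intro i
      filter_upwards [Lp.coeFn_smul (x i) (J (EuclideanSpace.single i (1 : ℝ)))] with ω hω
      rw [hω]
      rfl
    filter_upwards [h2, h3] with ω h4 h5
    rw [h4, ha]
    simp only
    rw [inner_sum, Finset.sum_apply]
    apply Finset.sum_congr rfl
    intro i _
    rw [h5 i, real_inner_smul_right, EuclideanSpace.inner_single_right]
    simp [mul_comm]
  have hnorm : ∀ x, ‖J x‖ ^ r = ∫ ω, |⟪x, a ω⟫| ^ r ∂μ := by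
    intro x
    have h0 : 0 ≤ ∫ ω, |⟪x, a ω⟫| ^ r ∂μ :=
      integral_nonneg (fun ω => rpow_nonneg (abs_nonneg _) _)
    have h1 : MemLp (fun ω => ⟪x, a ω⟫) p μ := (memLp_congr_ae (hax x)).1 (Lp.memLp (J x))
    rw [Lp.norm_def, eLpNorm_congr_ae (hax x), h1.eLpNorm_eq_integral_rpow_norm
      (by intro h; rw [h] at hp2; simp at hp2) hptop, ← hr,
      ENNReal.toReal_ofReal (by positivity)]
    simp_rw [Real.norm_eq_abs]
    rw [← rpow_mul h0, inv_mul_cancel₀ hr0.ne', rpow_one]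
  have hKmem : ∀ x, x ∈ K ↔ ∫ ω, |⟪x, a ω⟫| ^ r ∂μ ≤ 1 := by
    intro x
    rw [hJ, ← hnorm]
    constructor
    · intro h
      exact rpow_le_one (norm_nonneg _) h hr0.le
    · intro h
      by_contra h2
      rw [not_le] at h2
      have := one_lt_rpow h2 hr0
      linarith
  have hinj : ∀ x, (∀ᵐ ω ∂μ, ⟪x, a ω⟫ = 0) → x = 0 := by
    intro x hx
    by_contra hx0
    obtain ⟨R, hR⟩ := hKc.isBounded.exists_norm_le
    have hxn : 0 < ‖x‖ := norm_pos_iff.2 hx0
    have h1 : ((R + 1) / ‖x‖) • x ∈ K := by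
      rw [hKmem]
      have h2 : ∫ ω, |⟪((R + 1) / ‖x‖) • x, a ω⟫| ^ r ∂μ = ∫ ω, (0 : ℝ) ∂μ := by
        apply integral_congr_ae
        filter_upwards [hx] with ω hω
        rw [real_inner_smul_left, hω, mul_zero, abs_zero, zero_rpow hr0.ne']
      rw [h2, integral_zero]
      exact zero_le_one
    have h3 := hR _ h1
    rw [norm_smul, norm_div, norm_norm, div_mul_cancel₀ _ hxn.ne', Real.norm_eq_abs] at h3
    have := le_abs_self (R + 1)
    linarith
  have haLp' : MemLp a (ENNReal.ofReal r) μ := by rw [← hpr]; exact haLp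
  obtain ⟨A, ν, u, hν, hdet, hum, hu1, hiso, hint⟩ := lewis hr2 ham haLp' hinj
  have hKb : ∀ x, x ∈ LinearMap.adjoint (A : EuclideanSpace ℝ (Fin (k + 1)) →ₗ[ℝ]
      EuclideanSpace ℝ (Fin (k + 1))) ⁻¹' K ↔ ∫ ω, |⟪x, u ω⟫| ^ r ∂ν ≤ 1 := by
    intro x
    rw [mem_preimage, hKmem, hint]
    have e : ∀ ω, ⟪LinearMap.adjoint (A : EuclideanSpace ℝ (Fin (k + 1)) →ₗ[ℝ]
      EuclideanSpace ℝ (Fin (k + 1))) x, a ω⟫ = ⟪x, A (a ω)⟫ := by
      intro ω
      rw [LinearMap.adjoint_inner_left]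
      rfl
    simp_rw [e]
  have h1 := iso_volume hum hu1 hiso hr2 hr7 hKb
  exact h1.trans (volume_linear hdet K)

end

end Pool.Agent.Helper50.Mahler
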